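import Pool.Agent.Helper74_MC.Gr

/-!
# From special numbers of edges to all numbers of edges
-/

set_option autoImplicit false

namespace Pool.Agent.MC.H74

theorem sum_noShort {V W : Type} {G : SimpleGraph V} {H : SimpleGraph W} (hG : NoShort G)
    (hH : NoShort H) : NoShort (G ⊕g H) := by
  obtain ⟨g3, g4, g5⟩ := hG
  obtain ⟨h3, h4, h5⟩ := hH
  refine ⟨?_, ?_, ?_⟩
  · rintro (a | a) (b | b) (c | c) h1 h2 h3' <;> simp only [SimpleGraph.sum_adj] at h1 h2 h3'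
    · exact g3 a b c h1 h2 h3'
    · exact h3 a b c h1 h2 h3'
  · rintro (a | a) (b | b) (c | c) (d | d) h1 h2 h3' h4' n1 n2 <;>
      simp only [SimpleGraph.sum_adj] at h1 h2 h3' h4'
    · exact g4 a b c d h1 h2 h3' h4' (fun h => n1 (by rw [h])) (fun h => n2 (by rw [h]))
    · exact h4 a b c d h1 h2 h3' h4' (fun h => n1 (by rw [h])) (fun h => n2 (by rw [h]))
  · rintro (a | a) (b | b) (c | c) (d | d) (e | e) h1 h2 h3' h4' h5' n1 n2 n3 n4 n5 <;>
      simp only [SimpleGraph.sum_adj] at h1 h2 h3' h4' h5'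
    · exact g5 a b c d e h1 h2 h3' h4' h5' (fun h => n1 (by rw [h])) (fun h => n2 (by rw [h]))
        (fun h => n3 (by rw [h])) (fun h => n4 (by rw [h])) (fun h => n5 (by rw [h]))
    · exact h5 a b c d e h1 h2 h3' h4' h5' (fun h => n1 (by rw [h])) (fun h => n2 (by rw [h]))
        (fun h => n3 (by rw [h])) (fun h => n4 (by rw [h])) (fun h => n5 (by rw [h]))

theorem good_add {m m' : ℕ} {K K' : ℝ} (h : Good m K) (h' : Good m' K') :
    Good (m + m') (K + K') := by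
  classical
  obtain ⟨V, fV, G, hG, nG, cG⟩ := h
  obtain ⟨W, fW, H, hH, nH, cH⟩ := h'
  have inl2 : Function.Injective (fun q : V × V => ((Sum.inl q.1 : V ⊕ W), (Sum.inl q.2 : V ⊕ W))) := by
    rintro ⟨a, b⟩ ⟨c, d⟩ hh
    simp only [Prod.mk.injEq, Sum.inl.injEq] at hh
    exact Prod.ext hh.1 hh.2
  have inr2 : Function.Injective (fun q : W × W => ((Sum.inr q.1 : V ⊕ W), (Sum.inr q.2 : V ⊕ W))) := by
    rintro ⟨a, b⟩ ⟨c, d⟩ hh
    simp only [Prod.mk.injEq, Sum.inr.injEq] at hh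
    exact Prod.ext hh.1 hh.2
  refine ⟨V ⊕ W, inferInstance, G ⊕g H, ?_, sum_noShort nG nH, ?_⟩
  · have e : {q : (V ⊕ W) × (V ⊕ W) | (G ⊕g H).Adj q.1 q.2} =
        (fun q : V × V => ((Sum.inl q.1 : V ⊕ W), (Sum.inl q.2 : V ⊕ W))) ''
          {q : V × V | G.Adj q.1 q.2} ∪
        (fun q : W × W => ((Sum.inr q.1 : V ⊕ W), (Sum.inr q.2 : V ⊕ W))) ''
          {q : W × W | H.Adj q.1 q.2} := by
      ext ⟨a, b⟩
      rcases a with a | a <;> rcases b with b | b <;>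
        simp [SimpleGraph.sum_adj]
    rw [e, Set.ncard_union_eq, Set.ncard_image_of_injective _ inl2,
      Set.ncard_image_of_injective _ inr2, hG, hH, mul_add]
    · rw [Set.disjoint_left]
      rintro q ⟨x, _, rfl⟩ ⟨y, _, hy⟩
      simp only [Prod.mk.injEq] at hy
      exact absurd hy.1 (by simp)
  · intro S
    have e : {q : (V ⊕ W) × (V ⊕ W) | q.1 ∈ S ∧ q.2 ∉ S ∧ (G ⊕g H).Adj q.1 q.2} ⊆
        (fun q : V × V => ((Sum.inl q.1 : V ⊕ W), (Sum.inl q.2 : V ⊕ W))) ''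
          {q : V × V | q.1 ∈ Sum.inl ⁻¹' S ∧ q.2 ∉ Sum.inl ⁻¹' S ∧ G.Adj q.1 q.2} ∪
        (fun q : W × W => ((Sum.inr q.1 : V ⊕ W), (Sum.inr q.2 : V ⊕ W))) ''
          {q : W × W | q.1 ∈ Sum.inr ⁻¹' S ∧ q.2 ∉ Sum.inr ⁻¹' S ∧ H.Adj q.1 q.2} := by
      rintro ⟨a, b⟩ ⟨h1, h2, h3⟩
      rcases a with a | a <;> rcases b with b | b <;>
        simp only [SimpleGraph.sum_adj] at h3
      · exact Or.inl ⟨(a, b), ⟨h1, h2, h3⟩, rfl⟩
      · exact Or.inr ⟨(a, b), ⟨h1, h2, h3⟩, rfl⟩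
    have h1 := Set.ncard_le_ncard e (Set.toFinite _)
    have h2 := h1.trans (Set.ncard_union_le _ _)
    rw [Set.ncard_image_of_injective _ inl2, Set.ncard_image_of_injective _ inr2] at h2
    have h3 := cG (Sum.inl ⁻¹' S)
    have h4 := cH (Sum.inr ⁻¹' S)
    have h5 : (({q : (V ⊕ W) × (V ⊕ W) | q.1 ∈ S ∧ q.2 ∉ S ∧ (G ⊕g H).Adj q.1 q.2}.ncard : ℕ) : ℝ)
        ≤ (({q : V × V | q.1 ∈ Sum.inl ⁻¹' S ∧ q.2 ∉ Sum.inl ⁻¹' S ∧ G.Adj q.1 q.2}.ncard : ℕ) : ℝ)
        + (({q : W × W | q.1 ∈ Sum.inr ⁻¹' S ∧ q.2 ∉ Sum.inr ⁻¹' S ∧ H.Adj q.1 q.2}.ncard : ℕ) :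
          ℝ) := by
      exact_mod_cast h2
    push_cast
    linarith

theorem good_mono {m : ℕ} {K K' : ℝ} (h : Good m K) (hK : K ≤ K') : Good m K' := by
  obtain ⟨V, fV, G, hG, nG, cG⟩ := h
  exact ⟨V, fV, G, hG, nG, fun S => (cG S).trans (by linarith)⟩

theorem good_zero : Good 0 0 := by
  refine ⟨PEmpty, inferInstance, ⊥, ?_, ?_, ?_⟩
  · simp
  · exact ⟨fun a => a.elim, fun a => a.elim, fun a => a.elim⟩
  · intro S
    simp

theorem good_one : Good 1 (1 / 2) := by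
  refine ⟨Bool, inferInstance, ⊤, ?_, ?_, ?_⟩
  · have : {q : Bool × Bool | (⊤ : SimpleGraph Bool).Adj q.1 q.2} =
        (({(true, false), (false, true)} : Finset (Bool × Bool)) : Set (Bool × Bool)) := by
      ext ⟨a, b⟩
      cases a <;> cases b <;> simp
    rw [this, Set.ncard_coe_finset]
    rfl
  · refine ⟨?_, ?_, ?_⟩
    · intro a b c h1 h2 h3
      simp only [SimpleGraph.top_adj] at h1 h2 h3
      cases a <;> cases b <;> cases c <;> simp_all
    · intro a b c d h1 h2 h3 h4 n1 n2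
      simp only [SimpleGraph.top_adj] at h1 h2 h3
      cases a <;> cases b <;> cases c <;> simp_all
    · intro a b c d e h1 h2 h3 h4 h5 n1 n2 n3 n4 n5
      simp only [SimpleGraph.top_adj] at h1 h2 h3
      cases a <;> cases b <;> cases c <;> simp_all
  · intro S
    have h2 : {q : Bool × Bool | q.1 ∈ S ∧ q.2 ∉ S ∧ (⊤ : SimpleGraph Bool).Adj q.1 q.2}.ncard ≤ 1 := by
      rw [Set.ncard_le_one_iff]
      rintro ⟨a, b⟩ ⟨c, d⟩ ⟨h1, h2, h3⟩ ⟨h4, h5, h6⟩
      cases a <;> cases b <;> cases c <;> cases d <;> simp_all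
    calc _ ≤ ((1 : ℕ) : ℝ) := by exact_mod_cast h2
      _ ≤ _ := by norm_num

theorem good_triv (m : ℕ) : Good m (m / 2) := by
  induction m with
  | zero => simpa using good_zero
  | succ m ih =>
    have := good_add ih good_one
    refine good_mono this ?_
    push_cast
    linarith

theorem all_m (c C : ℝ) (p0 : ℕ) (hc : 0 < c) (hC : 0 < C)
    (H : ∀ p : ℕ, p0 ≤ p → p.Prime → ∃ e : ℕ, Good e (C * (p : ℝ) ^ 7) ∧
      c * (p : ℝ) ^ 8 ≤ (e : ℝ) ∧ (e : ℝ) ≤ (p : ℝ) ^ 8) :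
    ∃ c' : ℝ, 0 < c' ∧ ∀ m : ℕ, Good m (c' * (m : ℝ) ^ ((7 : ℝ) / 8)) := by
  -- c ≤ 1
  have hc1 : c ≤ 1 := by
    obtain ⟨p, hp, hpr⟩ := Nat.exists_infinite_primes p0
    obtain ⟨e, _, h1, h2⟩ := H p hp hpr
    have : (0 : ℝ) < (p : ℝ) ^ 8 := by
      have : (0 : ℝ) < p := by exact_mod_cast hpr.pos
      positivity
    nlinarith
  obtain ⟨δ, hδ⟩ : ∃ δ : ℝ, δ = c / 256 := ⟨_, rfl⟩
  have hδ0 : 0 < δ := by rw [hδ]; positivity
  have hδ1 : δ < 1 := by rw [hδ]; linarith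
  obtain ⟨ρ, hρ⟩ : ∃ ρ : ℝ, ρ = (1 - δ) ^ ((7 : ℝ) / 8) := ⟨_, rfl⟩
  have hρ1 : ρ < 1 := by
    rw [hρ]
    exact Real.rpow_lt_one (by linarith) (by linarith) (by norm_num)
  obtain ⟨c', hc'⟩ : ∃ c' : ℝ, c' = C / (1 - ρ) + ((2 * (p0 + 1)) ^ 8 : ℕ) := ⟨_, rfl⟩
  have hCρ : 0 < C / (1 - ρ) := div_pos hC (by linarith)
  have hc'0 : 0 < c' := by
    rw [hc']
    positivity
  have hc'1 : ((2 * (p0 + 1)) ^ 8 : ℕ) ≤ c' := by
    rw [hc']
    linarith
  have hc'2 : C ≤ c' * (1 - ρ) := by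
    have : C / (1 - ρ) ≤ c' := by
      rw [hc']
      have : (0 : ℝ) ≤ ((2 * (p0 + 1)) ^ 8 : ℕ) := Nat.cast_nonneg _
      linarith
    rwa [div_le_iff₀ (by linarith)] at this
  refine ⟨c', hc'0, ?_⟩
  intro m
  induction m using Nat.strong_induction_on with
  | _ m ih =>
    by_cases hm : m < (2 * (p0 + 1)) ^ 8
    · refine good_mono (good_triv m) ?_
      rcases Nat.eq_zero_or_pos m with h0 | h0
      · subst h0
        simp
      · have h1 : (1 : ℝ) ≤ (m : ℝ) ^ ((7 : ℝ) / 8) :=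
          Real.one_le_rpow (by exact_mod_cast h0) (by norm_num)
        have h2 : (m : ℝ) ≤ ((2 * (p0 + 1)) ^ 8 : ℕ) := by exact_mod_cast hm.le
        have h3 : (m : ℝ) ≤ c' := h2.trans hc'1
        have h4 : c' * 1 ≤ c' * (m : ℝ) ^ ((7 : ℝ) / 8) := mul_le_mul_of_nonneg_left h1 hc'0.le
        have h5 : (0 : ℝ) ≤ m := Nat.cast_nonneg _
        linarith
    · push Not at hm
      -- the scale
      have hex : (2 * (p0 + 1)) ^ 8 ≤ m := hm
      have hb : p0 + 1 ≤ m := by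
        refine le_trans ?_ hex
        calc p0 + 1 ≤ 2 * (p0 + 1) := by omega
          _ ≤ (2 * (p0 + 1)) ^ 8 := Nat.le_self_pow (by norm_num) _
      obtain ⟨n, hn⟩ : ∃ n, n = Nat.findGreatest (fun n => (2 * n) ^ 8 ≤ m) m := ⟨_, rfl⟩
      have hn1 : (2 * n) ^ 8 ≤ m := by
        rw [hn]
        exact Nat.findGreatest_spec (P := fun n => (2 * n) ^ 8 ≤ m) hb hex
      have hn2 : p0 + 1 ≤ n := by
        rw [hn]
        exact Nat.le_findGreatest hb hex
      have hn3 : m < (2 * (n + 1)) ^ 8 := by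
        by_contra hcon
        push Not at hcon
        have h1 : n + 1 ≤ m := by
          refine le_trans ?_ hcon
          calc n + 1 ≤ 2 * (n + 1) := by omega
            _ ≤ (2 * (n + 1)) ^ 8 := Nat.le_self_pow (by norm_num) _
        have h2 := Nat.le_findGreatest (P := fun n => (2 * n) ^ 8 ≤ m) h1 hcon
        rw [← hn] at h2
        omega
      obtain ⟨p, hp, hp1, hp2⟩ := Nat.exists_prime_lt_and_le_two_mul n (by omega)
      obtain ⟨e, he, he1, he2⟩ := H p (by omega) hp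
      have hp8 : (p : ℝ) ^ 8 ≤ m := by
        have : p ^ 8 ≤ m := (Nat.pow_le_pow_left hp2 8).trans hn1
        exact_mod_cast this
      have hpm : (m : ℝ) ≤ 256 * (p : ℝ) ^ 8 := by
        have h1 : m ≤ (2 * p) ^ 8 := hn3.le.trans (Nat.pow_le_pow_left (by omega) 8)
        have h2 : (m : ℝ) ≤ (2 * (p : ℝ)) ^ 8 := by exact_mod_cast h1
        rw [mul_pow] at h2
        norm_num at h2
        exact h2
      have hem : (e : ℝ) ≤ m := he2.trans hp8
      have hem' : e ≤ m := by exact_mod_cast hem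
      have hδe : δ * m ≤ e := by
        rw [hδ]
        refine le_trans ?_ he1
        have := mul_le_mul_of_nonneg_left hpm hc.le
        linarith
      have hm0 : (0 : ℝ) < m := by
        have : 0 < m := by omega
        exact_mod_cast this
      have he0 : 0 < e := by
        have : (0 : ℝ) < e := lt_of_lt_of_le (by positivity) hδe
        exact_mod_cast this
      have h1 := good_add he (ih (m - e) (by omega))
      have h2 : e + (m - e) = m := by omega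
      rw [h2] at h1
      refine good_mono h1 ?_
      have h3 : ((m - e : ℕ) : ℝ) ≤ (1 - δ) * m := by
        rw [Nat.cast_sub hem']
        linarith
      have h4 : ((m - e : ℕ) : ℝ) ^ ((7 : ℝ) / 8) ≤ ρ * (m : ℝ) ^ ((7 : ℝ) / 8) := by
        rw [hρ, ← Real.mul_rpow (by linarith) hm0.le]
        exact Real.rpow_le_rpow (Nat.cast_nonneg _) h3 (by norm_num)
      have h5 : (p : ℝ) ^ 7 ≤ (m : ℝ) ^ ((7 : ℝ) / 8) := by
        have h6 : (p : ℝ) ^ 7 = ((p : ℝ) ^ 8) ^ ((7 : ℝ) / 8) := by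
          rw [← Real.rpow_natCast (p : ℝ) 8, ← Real.rpow_mul (Nat.cast_nonneg _),
            ← Real.rpow_natCast]
          norm_num
        rw [h6]
        exact Real.rpow_le_rpow (by positivity) hp8 (by norm_num)
      have h7 : 0 ≤ (m : ℝ) ^ ((7 : ℝ) / 8) := by positivity
      calc C * (p : ℝ) ^ 7 + c' * ((m - e : ℕ) : ℝ) ^ ((7 : ℝ) / 8)
          ≤ C * (m : ℝ) ^ ((7 : ℝ) / 8) + c' * (ρ * (m : ℝ) ^ ((7 : ℝ) / 8)) :=
            add_le_add (mul_le_mul_of_nonneg_left h5 hC.le) (mul_le_mul_of_nonneg_left h4 hc'0.le)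
        _ = (C + c' * ρ) * (m : ℝ) ^ ((7 : ℝ) / 8) := by ring
        _ ≤ c' * (m : ℝ) ^ ((7 : ℝ) / 8) := by
            apply mul_le_mul_of_nonneg_right _ h7
            linarith

end Pool.Agent.MC.H74
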