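import Pool.Agent.Helper74_MC.Norm

/-!
# The cut bound
-/

set_option autoImplicit false

namespace Pool.Agent.MC.H74

variable {p : ℕ} [Fact p.Prime]

/-- the graph with the permutations indexed by flags -/
def gr' (s : Pt p → ZMod p → Bool) (r : Pt p × ZMod p → Equiv.Perm (ZMod p)) :
    SimpleGraph (Vt p) := gr s (fun l L => r (l, L))

/-- Indices of the edges. -/
abbrev Ix (p : ℕ) := Pt p × ZMod p × ZMod p × ZMod p

/-- first end -/
def ea (i : Ix p) : Vt p := (pt i.1 i.2.1, i.2.2.2)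

/-- second end -/
def eb (r : Pt p × ZMod p → Equiv.Perm (ZMod p)) (i : Ix p) : Vt p :=
  (pt i.1 i.2.2.1, (r (i.1, i.2.2.1)).symm (i.2.2.2 + i.2.1 * i.2.2.1))

/-- the index set -/
def IS (s : Pt p → ZMod p → Bool) : Finset (Ix p) :=
  Finset.univ.filter fun i => s i.1 i.2.1 = true ∧ s i.1 i.2.2.1 = false

theorem coll_pt (l : Pt p) (L M : ZMod p) : Coll l.1 (pt l L) (pt l M) := by
  unfold Coll
  rw [ln_pt, ln_pt]

theorem line_unique {l l' : Pt p} {L M L' M' : ZMod p} (h : L ≠ M) (h1 : pt l L = pt l' L')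
    (h2 : pt l M = pt l' M') : l = l' := by
  have c1 := coll_pt l L M
  have c2 := coll_pt l' L' M'
  rw [← h1, ← h2] at c2
  have hne : pt l L ≠ pt l M := by
    intro he
    exact h (congrArg Prod.fst he)
  have ht := c1.unique c2 hne
  have e1 := ln_pt l L
  have e2 := ln_pt l' L'
  rw [← h1, ← ht, e1] at e2
  exact e2

theorem side_ne {s : Pt p → ZMod p → Bool} {i : Ix p} (hi : i ∈ IS s) : i.2.1 ≠ i.2.2.1 := by
  intro h
  simp only [IS, Finset.mem_filter, Finset.mem_univ, true_and] at hi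
  rw [h, hi.2] at hi
  exact absurd hi.1 (by decide)

theorem eab_inj {s : Pt p → ZMod p → Bool} {r : Pt p × ZMod p → Equiv.Perm (ZMod p)} {i j : Ix p}
    (hi : i ∈ IS s) (h1 : ea i = ea j) (h2 : eb r i = eb r j) : i = j := by
  obtain ⟨l, L, M, g⟩ := i
  obtain ⟨l', L', M', g'⟩ := j
  have hne := side_ne hi
  simp only [ea, eb, Prod.mk.injEq] at h1 h2 hne
  have hl := line_unique hne h1.1 h2.1
  subst hl
  have e1 : L = L' := congrArg Prod.fst h1.1
  have e2 : M = M' := congrArg Prod.fst h2.1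
  rw [e1, e2, h1.2]

theorem eab_swap {s : Pt p → ZMod p → Bool} {r : Pt p × ZMod p → Equiv.Perm (ZMod p)} {i j : Ix p}
    (hi : i ∈ IS s) (hj : j ∈ IS s) (h1 : ea i = eb r j) (h2 : eb r i = ea j) : False := by
  obtain ⟨l, L, M, g⟩ := i
  obtain ⟨l', L', M', g'⟩ := j
  have hne := side_ne hi
  simp only [ea, eb, Prod.mk.injEq] at h1 h2 hne
  have hl := line_unique hne h1.1 h2.1
  subst hl
  have e1 : L = M' := congrArg Prod.fst h1.1
  simp only [IS, Finset.mem_filter, Finset.mem_univ, true_and] at hi hj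
  rw [e1, hj.2] at hi
  exact absurd hi.1 (by decide)

theorem adj_iff (s : Pt p → ZMod p → Bool) (r : Pt p × ZMod p → Equiv.Perm (ZMod p))
    (u v : Vt p) : (gr' s r).Adj u v ↔ (∃ i ∈ IS s, ea i = u ∧ eb r i = v) ∨
      (∃ i ∈ IS s, ea i = v ∧ eb r i = u) := by
  have key : ∀ u v : Vt p, (∃ t, Arc s (fun l L => r (l, L)) t u v) ↔
      ∃ i ∈ IS s, ea i = u ∧ eb r i = v := by
    intro u v
    constructor
    · rintro ⟨t, h1, h2, h3, h4⟩
      refine ⟨(ln u.1 t, u.1.1, v.1.1, u.2), ?_, ?_, ?_⟩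
      · simp only [IS, Finset.mem_filter, Finset.mem_univ, true_and]
        exact ⟨h2, h3⟩
      · simp only [ea, pt_ln]
      · simp only [eb]
        rw [← h4, Equiv.symm_apply_apply]
        unfold Coll at h1
        rw [h1, pt_ln]
    · rintro ⟨⟨l, L, M, g⟩, hi, rfl, rfl⟩
      simp only [IS, Finset.mem_filter, Finset.mem_univ, true_and] at hi
      refine ⟨l.1, coll_pt l L M, ?_, ?_, ?_⟩
      · simp only [ea, ln_pt, pt_fst]
        exact hi.1
      · simp only [ea, eb, ln_pt, pt_fst]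
        exact hi.2
      · simp only [ea, eb, ln_pt, pt_fst, Equiv.apply_symm_apply]
  rw [← key u v, ← key v u]
  constructor
  · rintro ⟨t, h | h⟩
    · exact Or.inl ⟨t, h⟩
    · exact Or.inr ⟨t, h⟩
  · rintro (⟨t, h⟩ | ⟨t, h⟩)
    · exact ⟨t, Or.inl h⟩
    · exact ⟨t, Or.inr h⟩

theorem card_adj (s : Pt p → ZMod p → Bool) (r : Pt p × ZMod p → Equiv.Perm (ZMod p)) :
    {q : Vt p × Vt p | (gr' s r).Adj q.1 q.2}.ncard = 2 * (IS s).card := by
  classical
  have h : {q : Vt p × Vt p | (gr' s r).Adj q.1 q.2} =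
      (((IS s).image fun i => (ea i, eb r i)) ∪ ((IS s).image fun i => (eb r i, ea i)) :
        Finset (Vt p × Vt p)) := by
    ext ⟨u, v⟩
    simp only [Set.mem_setOf_eq, adj_iff, Finset.coe_union, Finset.coe_image, Set.mem_union,
      Set.mem_image, Finset.mem_coe, Prod.mk.injEq]
    constructor
    · rintro (⟨i, hi, h1, h2⟩ | ⟨i, hi, h1, h2⟩)
      · exact Or.inl ⟨i, hi, h1, h2⟩
      · exact Or.inr ⟨i, hi, h2, h1⟩
    · rintro (⟨i, hi, h1, h2⟩ | ⟨i, hi, h1, h2⟩)
      · exact Or.inl ⟨i, hi, h1, h2⟩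
      · exact Or.inr ⟨i, hi, h2, h1⟩
  rw [h, Set.ncard_coe_finset, Finset.card_union_of_disjoint, Finset.card_image_of_injOn,
    Finset.card_image_of_injOn]
  · ring
  · intro i hi j hj hij
    simp only [Prod.mk.injEq] at hij
    exact eab_inj hi hij.2 hij.1
  · intro i hi j hj hij
    simp only [Prod.mk.injEq] at hij
    exact eab_inj hi hij.1 hij.2
  · rw [Finset.disjoint_left]
    rintro q h1 h2
    simp only [Finset.mem_image] at h1 h2
    obtain ⟨i, hi, rfl⟩ := h1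
    obtain ⟨j, hj, hji⟩ := h2
    simp only [Prod.mk.injEq] at hji
    exact eab_swap hi hj hji.1.symm hji.2.symm

/-- the cut sum -/
noncomputable def Tf (s : Pt p → ZMod p → Bool) (r : Pt p × ZMod p → Equiv.Perm (ZMod p))
    (X : Vt p → ℝ) : ℝ := ∑ i ∈ IS s, X (ea i) * X (eb r i)

theorem cut_le (s : Pt p → ZMod p → Bool) (r : Pt p × ZMod p → Equiv.Perm (ZMod p))
    (S : Set (Vt p)) (X : Vt p → ℝ) (h1 : ∀ v ∈ S, X v = 1) (h2 : ∀ v, v ∉ S → X v = -1) :
    (({q : Vt p × Vt p | q.1 ∈ S ∧ q.2 ∉ S ∧ (gr' s r).Adj q.1 q.2}.ncard : ℕ) : ℝ) ≤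
      ((IS s).card : ℝ) / 2 - Tf s r X / 2 := by
  classical
  have h : {q : Vt p × Vt p | q.1 ∈ S ∧ q.2 ∉ S ∧ (gr' s r).Adj q.1 q.2} ⊆
      ((((IS s).filter fun i => ea i ∈ S ∧ eb r i ∉ S).image fun i => (ea i, eb r i)) ∪
        (((IS s).filter fun i => eb r i ∈ S ∧ ea i ∉ S).image fun i => (eb r i, ea i)) :
        Finset (Vt p × Vt p)) := by
    rintro ⟨u, v⟩ ⟨hu, hv, hadj⟩
    simp only [Finset.coe_union, Finset.coe_image, Set.mem_union, Set.mem_image, Finset.mem_coe,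
      Finset.mem_filter, Prod.mk.injEq]
    rw [adj_iff] at hadj
    rcases hadj with ⟨i, hi, e1, e2⟩ | ⟨i, hi, e1, e2⟩
    · simp only at e1 e2 hu hv
      exact Or.inl ⟨i, ⟨hi, by rw [e1, e2]; exact ⟨hu, hv⟩⟩, e1, e2⟩
    · simp only at e1 e2 hu hv
      exact Or.inr ⟨i, ⟨hi, by rw [e1, e2]; exact ⟨hu, hv⟩⟩, e2, e1⟩
  have h3 := Set.ncard_le_ncard h (Finset.finite_toSet _)
  rw [Set.ncard_coe_finset] at h3
  have h4 : (({q : Vt p × Vt p | q.1 ∈ S ∧ q.2 ∉ S ∧ (gr' s r).Adj q.1 q.2}.ncard : ℕ)) ≤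
      ((IS s).filter fun i => ea i ∈ S ∧ eb r i ∉ S).card +
      ((IS s).filter fun i => eb r i ∈ S ∧ ea i ∉ S).card := by
    refine h3.trans ((Finset.card_union_le _ _).trans ?_)
    exact Nat.add_le_add Finset.card_image_le Finset.card_image_le
  have h5 : (((IS s).filter fun i => ea i ∈ S ∧ eb r i ∉ S).card : ℝ) +
      (((IS s).filter fun i => eb r i ∈ S ∧ ea i ∉ S).card : ℝ) =
      ((IS s).card : ℝ) / 2 - Tf s r X / 2 := by
    rw [Finset.card_filter, Finset.card_filter]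
    push_cast
    rw [← Finset.sum_add_distrib]
    have : ((IS s).card : ℝ) / 2 - Tf s r X / 2 =
        ∑ i ∈ IS s, (1 / 2 - X (ea i) * X (eb r i) / 2) := by
      rw [Finset.sum_sub_distrib, Finset.sum_const, nsmul_eq_mul, ← Finset.sum_div]
      unfold Tf
      ring
    rw [this]
    apply Finset.sum_congr rfl
    intro i _
    by_cases ha : ea i ∈ S <;> by_cases hb : eb r i ∈ S
    · rw [h1 _ ha, h1 _ hb]
      simp [ha, hb]
    · rw [h1 _ ha, h2 _ hb]
      simp [ha, hb]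
      norm_num
    · rw [h2 _ ha, h1 _ hb]
      simp [ha, hb]
      norm_num
    · rw [h2 _ ha, h2 _ hb]
      simp [ha, hb]
  rw [← h5]
  exact_mod_cast h4

theorem inner_eq (x Y : ZMod p → ℝ) (c : ZMod p) :
    ∑ g, x g * Y (g + c) = ∑ u, cen x (u - c) * Y u + (∑ h, x h) / p * ∑ u, Y u := by
  rw [← Equiv.sum_comp (Equiv.addRight c) (fun u => cen x (u - c) * Y u),
    ← Equiv.sum_comp (Equiv.addRight c) Y, Finset.mul_sum, ← Finset.sum_add_distrib]
  apply Finset.sum_congr rfl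
  intro g _
  simp only [Equiv.coe_addRight, add_sub_cancel_right, cen]
  ring

theorem Tf_eq (s : Pt p → ZMod p → Bool) (r : Pt p × ZMod p → Equiv.Perm (ZMod p))
    (X : Vt p → ℝ) : Tf s r X = Wf s r X + ∑ l : Pt p,
      (p : ℝ) * ((∑ L : ZMod p, if s l L then (∑ h, X (pt l L, h)) / p else 0) *
        (∑ M : ZMod p, if s l M then 0 else (∑ h, X (pt l M, h)) / p)) := by
  have hp0 : (p : ℝ) ≠ 0 := by exact_mod_cast (Fact.out : p.Prime).ne_zero
  unfold Tf Wf IS
  rw [Finset.sum_filter, Fintype.sum_prod_type, ← Finset.sum_add_distrib]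
  apply Finset.sum_congr rfl
  intro l _
  rw [Fintype.sum_prod_type]
  simp only [Fintype.sum_prod_type, ea, eb]
  rw [Finset.sum_comm, Finset.mul_sum, Finset.mul_sum, ← Finset.sum_add_distrib]
  apply Finset.sum_congr rfl
  intro M _
  by_cases hM : s l M = true
  · simp [hM]
  · have hM' : s l M = false := by simpa using hM
    simp only [hM', and_true, Bool.false_eq_true, if_false]
    have h1 : ∀ L : ZMod p, (∑ g : ZMod p, if s l L = true then
        X (pt l L, g) * X (pt l M, (r (l, M)).symm (g + L * M)) else 0) =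
        (∑ u, (if s l L = true then cen (fun g => X (pt l L, g)) (u - L * M) else 0) *
          X (pt l M, (r (l, M)).symm u)) +
        (if s l L = true then (∑ h, X (pt l L, h)) / p else 0) * ∑ h, X (pt l M, h) := by
      intro L
      split_ifs
      · rw [inner_eq (fun g => X (pt l L, g)) (fun u => X (pt l M, (r (l, M)).symm u)) (L * M),
          Equiv.sum_comp (r (l, M)).symm (fun h => X (pt l M, h))]
      · simp
    simp only [h1]
    rw [Finset.sum_add_distrib, ← Finset.sum_mul]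
    congr 1
    · rw [Finset.sum_comm]
      apply Finset.sum_congr rfl
      intro u _
      unfold Zf
      rw [Finset.sum_mul]
    · field_simp

theorem mean_ge (s : Pt p → ZMod p → Bool)
    (hs : ∀ X : Pt p → ℝ, (∀ x, X x = 1 ∨ X x = -1) →
      ∑ l : Pt p, (∑ L : ZMod p, sg (s l L) * X (pt l L)) ^ 2 ≤ 5 * (p : ℝ) ^ 6)
    (X : Vt p → ℝ) (hX : ∀ v, X v = 1 ∨ X v = -1) :
    -(5 / 4 * (p : ℝ) ^ 7) ≤ ∑ l : Pt p,
      (p : ℝ) * ((∑ L : ZMod p, if s l L then (∑ h, X (pt l L, h)) / p else 0) *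
        (∑ M : ZMod p, if s l M then 0 else (∑ h, X (pt l M, h)) / p)) := by
  have hp0 : (0 : ℝ) < p := by exact_mod_cast (Fact.out : p.Prime).pos
  have h1 : ∀ l : Pt p, -(1 / 4 * ∑ h : ZMod p, (∑ L : ZMod p, sg (s l L) * X (pt l L, h)) ^ 2) ≤
      (p : ℝ) * ((∑ L : ZMod p, if s l L then (∑ h, X (pt l L, h)) / p else 0) *
        (∑ M : ZMod p, if s l M then 0 else (∑ h, X (pt l M, h)) / p)) := by
    intro l
    have h2 : (∑ L : ZMod p, if s l L then (∑ h, X (pt l L, h)) / p else 0) -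
        (∑ M : ZMod p, if s l M then 0 else (∑ h, X (pt l M, h)) / (p : ℝ)) =
        (∑ h : ZMod p, ∑ L : ZMod p, sg (s l L) * X (pt l L, h)) / p := by
      rw [← Finset.sum_sub_distrib, Finset.sum_comm, Finset.sum_div]
      apply Finset.sum_congr rfl
      intro L _
      rw [← Finset.mul_sum]
      cases s l L <;> simp [sg, neg_div]
    have h3 : (∑ h : ZMod p, ∑ L : ZMod p, sg (s l L) * X (pt l L, h)) ^ 2 ≤
        (p : ℝ) * ∑ h : ZMod p, (∑ L : ZMod p, sg (s l L) * X (pt l L, h)) ^ 2 := by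
      have := sq_sum_le_card_mul_sum_sq (s := (Finset.univ : Finset (ZMod p)))
        (f := fun h => ∑ L : ZMod p, sg (s l L) * X (pt l L, h))
      rw [Finset.card_univ, ZMod.card] at this
      exact this
    set A := (∑ L : ZMod p, if s l L then (∑ h, X (pt l L, h)) / (p : ℝ) else 0) with hA
    set B := (∑ M : ZMod p, if s l M then 0 else (∑ h, X (pt l M, h)) / (p : ℝ)) with hB
    have h4 : (p : ℝ) * (A - B) ^ 2 ≤
        ∑ h : ZMod p, (∑ L : ZMod p, sg (s l L) * X (pt l L, h)) ^ 2 := by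
      rw [h2, div_pow]
      calc (p : ℝ) * ((∑ h : ZMod p, ∑ L : ZMod p, sg (s l L) * X (pt l L, h)) ^ 2 / (p : ℝ) ^ 2)
          ≤ (p : ℝ) * ((p : ℝ) * (∑ h : ZMod p, (∑ L : ZMod p, sg (s l L) * X (pt l L, h)) ^ 2) /
            (p : ℝ) ^ 2) := by
            gcongr
        _ = _ := by field_simp
    nlinarith [sq_nonneg (A + B), mul_nonneg hp0.le (sq_nonneg (A + B))]
  refine le_trans ?_ (Finset.sum_le_sum fun l _ => h1 l)
  rw [Finset.sum_neg_distrib, ← Finset.mul_sum, Finset.sum_comm]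
  have h5 : ∑ h : ZMod p, ∑ l : Pt p, (∑ L : ZMod p, sg (s l L) * X (pt l L, h)) ^ 2 ≤
      ∑ _h : ZMod p, 5 * (p : ℝ) ^ 6 := by
    apply Finset.sum_le_sum
    intro h _
    exact hs (fun x => X (x, h)) (fun x => hX _)
  rw [Finset.sum_const, Finset.card_univ, ZMod.card, nsmul_eq_mul] at h5
  nlinarith

theorem card_IS (s : Pt p → ZMod p → Bool) : 4 * ((IS s).card : ℝ) =
    (p : ℝ) * ∑ l : Pt p, ((p : ℝ) ^ 2 - (∑ L : ZMod p, sg (s l L)) ^ 2) := by
  unfold IS
  rw [Finset.card_filter]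
  push_cast
  rw [Fintype.sum_prod_type, Finset.mul_sum, Finset.mul_sum]
  apply Finset.sum_congr rfl
  intro l _
  simp only [Fintype.sum_prod_type]
  have h1 : ∀ L M : ZMod p, (∑ _g : ZMod p, if s l L = true ∧ s l M = false then (1 : ℝ) else 0) =
      (p : ℝ) * ((1 + sg (s l L)) / 2 * ((1 - sg (s l M)) / 2)) := by
    intro L M
    rw [Finset.sum_const, Finset.card_univ, ZMod.card, nsmul_eq_mul]
    cases s l L <;> cases s l M <;> simp [sg]
  simp only [h1, ← Finset.mul_sum]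
  rw [← Finset.sum_mul]
  simp only [← Finset.sum_div, Finset.sum_add_distrib, Finset.sum_sub_distrib, Finset.sum_const,
    Finset.card_univ, ZMod.card, nsmul_eq_mul, mul_one]
  ring

theorem main_p (hS : SliceStmt) (hp : p ≠ 2) : ∃ e : ℕ, Good e (4 * (p : ℝ) ^ 7) ∧
    ((p : ℝ) ^ 8 - 5 * (p : ℝ) ^ 7) / 4 ≤ (e : ℝ) ∧ (e : ℝ) ≤ (p : ℝ) ^ 8 := by
  have hp0 : (0 : ℝ) < p := by exact_mod_cast (Fact.out : p.Prime).pos
  have hcard : Fintype.card (Pt p) = p ^ 5 := by
    simp only [Pt, Fintype.card_prod, ZMod.card]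
    ring
  obtain ⟨s, hs⟩ := sides (p := p)
  obtain ⟨r, hr⟩ := fluc hS s
  refine ⟨(IS s).card, ⟨Vt p, inferInstance, gr' s r, card_adj s r, gr_noShort hp _ _, ?_⟩, ?_, ?_⟩
  · intro S
    classical
    have hX : ∀ v, (if v ∈ S then (1 : ℝ) else -1) = 1 ∨ (if v ∈ S then (1 : ℝ) else -1) = -1 := by
      intro v
      by_cases h : v ∈ S <;> simp [h]
    have h1 := cut_le s r S (fun v => if v ∈ S then 1 else -1) (fun v hv => by simp [hv])
      (fun v hv => by simp [hv])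
    have h2 := Tf_eq s r (fun v => if v ∈ S then (1 : ℝ) else -1)
    have h3 := mean_ge s hs (fun v => if v ∈ S then (1 : ℝ) else -1) hX
    have h4 := hr (fun v => if v ∈ S then (1 : ℝ) else -1) hX
    refine h1.trans ?_
    rw [h2]
    have : 0 ≤ (p : ℝ) ^ 7 := by positivity
    linarith
  · have h1 := card_IS s
    have h2 := hs (fun _ => 1) (fun _ => Or.inl rfl)
    simp only [mul_one] at h2
    rw [Finset.sum_sub_distrib, Finset.sum_const, Finset.card_univ, hcard, nsmul_eq_mul] at h1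
    push_cast at h1
    nlinarith
  · have h1 := card_IS s
    rw [Finset.sum_sub_distrib, Finset.sum_const, Finset.card_univ, hcard, nsmul_eq_mul] at h1
    push_cast at h1
    have h2 : 0 ≤ ∑ l : Pt p, (∑ L : ZMod p, sg (s l L)) ^ 2 :=
      Finset.sum_nonneg fun l _ => sq_nonneg _
    have h3 := mul_nonneg hp0.le h2
    have h4 : 0 ≤ (p : ℝ) ^ 8 := by positivity
    nlinarith

end Pool.Agent.MC.H74
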