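import Mathlib

/-!
# The affine split Cayley hexagon over a prime field

Points and lines are 5-tuples over `ZMod p`.
-/

set_option autoImplicit false

namespace Pool.Agent.MC.H74

/-- Points, and also lines, are 5-tuples. -/
abbrev Pt (p : ℕ) := ZMod p × ZMod p × ZMod p × ZMod p × ZMod p

variable {p : ℕ}

/-- The symplectic form of the point `x` with the twisted cubic vector at `t`. -/
def omt (x : Pt p) (t : ZMod p) : ZMod p :=
  x.1 * t ^ 3 - 3 * x.2.1 * t ^ 2 + 3 * x.2.2.1 * t - x.2.2.2.1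

/-- The line in direction `t` through the point `x`. -/
def ln (x : Pt p) (t : ZMod p) : Pt p :=
  (t, x.2.1 - t * x.1, x.2.2.1 - t ^ 2 * x.1, x.2.2.2.1 - t ^ 3 * x.1,
    x.2.2.2.2 - x.1 * omt x t)

/-- The point with first coordinate `L` on the line `l`. -/
def pt (l : Pt p) (L : ZMod p) : Pt p :=
  (L, l.2.1 + l.1 * L, l.2.2.1 + l.1 ^ 2 * L, l.2.2.2.1 + l.1 ^ 3 * L,
    l.2.2.2.2 + L * (-3 * l.2.1 * l.1 ^ 2 + 3 * l.2.2.1 * l.1 - l.2.2.2.1))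

theorem pt_fst (l : Pt p) (L : ZMod p) : (pt l L).1 = L := rfl

theorem ln_fst (x : Pt p) (t : ZMod p) : (ln x t).1 = t := rfl

theorem ln_pt (l : Pt p) (L : ZMod p) : ln (pt l L) l.1 = l := by
  obtain ⟨t, a, b, c, d⟩ := l
  simp only [ln, pt, omt, Prod.mk.injEq, true_and]
  refine ⟨?_, ?_, ?_, ?_⟩ <;> ring

theorem pt_ln (x : Pt p) (t : ZMod p) : pt (ln x t) x.1 = x := by
  obtain ⟨v0, v1, v2, v3, z⟩ := x
  simp only [ln, pt, omt, Prod.mk.injEq, true_and]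
  refine ⟨?_, ?_, ?_, ?_⟩ <;> ring

/-- Two points are collinear in direction `t`. -/
def Coll (t : ZMod p) (x y : Pt p) : Prop := ln x t = ln y t

theorem Coll.symm {t : ZMod p} {x y : Pt p} (h : Coll t x y) : Coll t y x := Eq.symm h

theorem Coll.trans {t : ZMod p} {x y z : Pt p} (h : Coll t x y) (h' : Coll t y z) :
    Coll t x z := Eq.trans h h'

theorem Coll.eqs {t : ZMod p} {x y : Pt p} (h : Coll t x y) :
    y.2.1 = x.2.1 + t * (y.1 - x.1) ∧ y.2.2.1 = x.2.2.1 + t ^ 2 * (y.1 - x.1) ∧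
      y.2.2.2.1 = x.2.2.2.1 + t ^ 3 * (y.1 - x.1) ∧
      y.2.2.2.2 = x.2.2.2.2 + (y.1 - x.1) * omt x t := by
  obtain ⟨v0, v1, v2, v3, z⟩ := x
  obtain ⟨w0, w1, w2, w3, y⟩ := y
  simp only [Coll, ln, omt, Prod.mk.injEq, true_and] at h
  obtain ⟨h1, h2, h3, h4⟩ := h
  simp only [omt]
  have e1 : w1 = v1 + t * (w0 - v0) := by linear_combination -h1
  have e2 : w2 = v2 + t ^ 2 * (w0 - v0) := by linear_combination -h2
  have e3 : w3 = v3 + t ^ 3 * (w0 - v0) := by linear_combination -h3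
  refine ⟨e1, e2, e3, ?_⟩
  subst e1 e2 e3
  linear_combination -h4

theorem Coll.ext {t : ZMod p} {x y : Pt p} (h : Coll t x y) (h0 : x.1 = y.1) : x = y := by
  have h1 := pt_ln x t
  have h2 := pt_ln y t
  rw [← h1, ← h2, h0]
  unfold Coll at h
  rw [h]

theorem Coll.fst_ne {t : ZMod p} {x y : Pt p} (h : Coll t x y) (hne : x ≠ y) : x.1 ≠ y.1 :=
  fun h0 => hne (h.ext h0)

section field

variable [Fact p.Prime]

theorem Coll.unique {t t' : ZMod p} {x y : Pt p} (h : Coll t x y) (h' : Coll t' x y)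
    (hne : x ≠ y) : t = t' := by
  have h0 := h.fst_ne hne
  have e := h.eqs.1
  have e' := h'.eqs.1
  have h1 : (t - t') * (y.1 - x.1) = 0 := by linear_combination e' - e
  rcases mul_eq_zero.1 h1 with h2 | h2
  · exact sub_eq_zero.1 h2
  · exact absurd (sub_eq_zero.1 h2).symm h0

/-- words of length 3 -/
theorem word3 {l1 l2 l3 t1 t2 t3 : ZMod p} (h1 : l1 ≠ 0)
    (m0 : l1 + l2 + l3 = 0) (m1 : l1 * t1 + l2 * t2 + l3 * t3 = 0)
    (m2 : l1 * t1 ^ 2 + l2 * t2 ^ 2 + l3 * t3 ^ 2 = 0)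
    (n12 : t1 ≠ t2) (n31 : t3 ≠ t1) : False := by
  have e : l1 * ((t1 - t2) * (t1 - t3)) = 0 := by
    linear_combination m2 - (t2 + t3) * m1 + t2 * t3 * m0
  have := mul_ne_zero h1 (mul_ne_zero (sub_ne_zero.2 n12) (sub_ne_zero.2 n31.symm))
  exact this e

/-- words of length 4 -/
theorem word4 (hp : p ≠ 2) {l1 l2 l3 l4 t1 t2 t3 t4 : ZMod p} (h1 : l1 ≠ 0) (h2 : l2 ≠ 0)
    (m0 : l1 + l2 + l3 + l4 = 0) (m1 : l1 * t1 + l2 * t2 + l3 * t3 + l4 * t4 = 0)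
    (m2 : l1 * t1 ^ 2 + l2 * t2 ^ 2 + l3 * t3 ^ 2 + l4 * t4 ^ 2 = 0)
    (m3 : l1 * t1 ^ 3 + l2 * t2 ^ 3 + l3 * t3 ^ 3 + l4 * t4 ^ 3 = 0)
    (c : l1 * l2 * (t2 - t1) ^ 3 + l1 * l3 * (t3 - t1) ^ 3 + l1 * l4 * (t4 - t1) ^ 3 +
      l2 * l3 * (t3 - t2) ^ 3 + l2 * l4 * (t4 - t2) ^ 3 + l3 * l4 * (t4 - t3) ^ 3 = 0)
    (n12 : t1 ≠ t2) (n23 : t2 ≠ t3) (n34 : t3 ≠ t4) (n41 : t4 ≠ t1) : False := by
  have e13 : t1 = t3 := by
    by_contra hne
    have e : l1 * ((t1 - t2) * ((t1 - t3) * (t1 - t4))) = 0 := by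
      linear_combination m3 - (t2 + t3 + t4) * m2 + (t2 * t3 + t2 * t4 + t3 * t4) * m1 -
        t2 * t3 * t4 * m0
    exact (mul_ne_zero h1 (mul_ne_zero (sub_ne_zero.2 n12) (mul_ne_zero (sub_ne_zero.2 hne)
      (sub_ne_zero.2 n41.symm)))) e
  have e24 : t2 = t4 := by
    by_contra hne
    have e : l2 * ((t2 - t1) * ((t2 - t3) * (t2 - t4))) = 0 := by
      linear_combination m3 - (t1 + t3 + t4) * m2 + (t1 * t3 + t1 * t4 + t3 * t4) * m1 -
        t1 * t3 * t4 * m0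
    exact (mul_ne_zero h2 (mul_ne_zero (sub_ne_zero.2 n12.symm) (mul_ne_zero (sub_ne_zero.2 n23)
      (sub_ne_zero.2 hne)))) e
  subst e13 e24
  have e3 : (l1 + l3) * (t1 - t2) = 0 := by linear_combination m1 - t2 * m0
  have e3' : l3 = -l1 := by
    rcases mul_eq_zero.1 e3 with h | h
    · linear_combination h
    · exact absurd (sub_eq_zero.1 h) n12
  have e4' : l4 = -l2 := by linear_combination m0 - e3'
  subst e3' e4'
  have e5 : (2 : ZMod p) * (l1 * (l2 * (t2 - t1) ^ 3)) = 0 := by linear_combination c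
  have h20 : (2 : ZMod p) ≠ 0 := by
    intro h
    have h' : ((2 : ℕ) : ZMod p) = 0 := by exact_mod_cast h
    rw [ZMod.natCast_eq_zero_iff] at h'
    exact hp ((Nat.prime_dvd_prime_iff_eq (Fact.out : p.Prime) Nat.prime_two).1 h')
  exact (mul_ne_zero h20 (mul_ne_zero h1 (mul_ne_zero h2
    (pow_ne_zero _ (sub_ne_zero.2 n12.symm))))) e5

/-- words of length 5 with consecutive directions distinct: the directions one and three are
distinct -/
theorem word5_ne {l1 l2 l3 l4 l5 t1 t2 t3 t4 t5 : ZMod p} (h2 : l2 ≠ 0) (h4 : l4 ≠ 0)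
    (h5 : l5 ≠ 0)
    (m0 : l1 + l2 + l3 + l4 + l5 = 0) (m1 : l1 * t1 + l2 * t2 + l3 * t3 + l4 * t4 + l5 * t5 = 0)
    (m2 : l1 * t1 ^ 2 + l2 * t2 ^ 2 + l3 * t3 ^ 2 + l4 * t4 ^ 2 + l5 * t5 ^ 2 = 0)
    (m3 : l1 * t1 ^ 3 + l2 * t2 ^ 3 + l3 * t3 ^ 3 + l4 * t4 ^ 3 + l5 * t5 ^ 3 = 0)
    (n12 : t1 ≠ t2) (n34 : t3 ≠ t4) (n45 : t4 ≠ t5) (n51 : t5 ≠ t1) :
    t1 ≠ t3 := by
  intro e13
  subst e13
  by_cases h24 : t2 = t4
  · subst h24
    have e : l5 * ((t5 - t1) * (t5 - t2)) = 0 := by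
      linear_combination m2 - (t1 + t2) * m1 + t1 * t2 * m0
    exact (mul_ne_zero h5 (mul_ne_zero (sub_ne_zero.2 n51) (sub_ne_zero.2 n45.symm))) e
  · by_cases h25 : t2 = t5
    · subst h25
      have e : l4 * ((t4 - t1) * (t4 - t2)) = 0 := by
        linear_combination m2 - (t1 + t2) * m1 + t1 * t2 * m0
      exact (mul_ne_zero h4 (mul_ne_zero (sub_ne_zero.2 n34.symm) (sub_ne_zero.2 n45))) e
    · have e : l2 * ((t2 - t1) * ((t2 - t4) * (t2 - t5))) = 0 := by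
        linear_combination m3 - (t1 + t4 + t5) * m2 + (t1 * t4 + t1 * t5 + t4 * t5) * m1 -
          t1 * t4 * t5 * m0
      exact (mul_ne_zero h2 (mul_ne_zero (sub_ne_zero.2 n12.symm) (mul_ne_zero
        (sub_ne_zero.2 h24) (sub_ne_zero.2 h25)))) e

end field

end Pool.Agent.MC.H74
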