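import Pool.Agent.Helper74_MC.Poly

/-!
# The lifted collinearity graph
-/

set_option autoImplicit false

namespace Pool.Agent.MC.H74

/-- Vertices: a point and a label. -/
abbrev Vt (p : ℕ) := Pt p × ZMod p

variable {p : ℕ}

/-- Directed adjacency in direction `t`. -/
def Arc (s : Pt p → ZMod p → Bool) (r : Pt p → ZMod p → Equiv.Perm (ZMod p)) (t : ZMod p)
    (u v : Vt p) : Prop :=
  Coll t u.1 v.1 ∧ s (ln u.1 t) u.1.1 = true ∧ s (ln u.1 t) v.1.1 = false ∧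
    r (ln u.1 t) v.1.1 v.2 = u.2 + u.1.1 * v.1.1

/-- Adjacency in direction `t`. -/
def AdjD (s : Pt p → ZMod p → Bool) (r : Pt p → ZMod p → Equiv.Perm (ZMod p)) (t : ZMod p)
    (u v : Vt p) : Prop := Arc s r t u v ∨ Arc s r t v u

/-- The graph. -/
def gr (s : Pt p → ZMod p → Bool) (r : Pt p → ZMod p → Equiv.Perm (ZMod p)) :
    SimpleGraph (Vt p) where
  Adj u v := ∃ t, AdjD s r t u v
  symm := ⟨fun u v h => by
    obtain ⟨t, h | h⟩ := h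
    · exact ⟨t, Or.inr h⟩
    · exact ⟨t, Or.inl h⟩⟩
  loopless := ⟨fun u h => by
    obtain ⟨t, h | h⟩ := h
    · have := h.2.1.symm.trans h.2.2.1
      exact absurd this (by decide)
    · have := h.2.1.symm.trans h.2.2.1
      exact absurd this (by decide)⟩

section

variable {s : Pt p → ZMod p → Bool} {r : Pt p → ZMod p → Equiv.Perm (ZMod p)} {t : ZMod p}

theorem AdjD.symm {u v : Vt p} (h : AdjD s r t u v) : AdjD s r t v u := Or.symm h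

theorem AdjD.coll {u v : Vt p} (h : AdjD s r t u v) : Coll t u.1 v.1 := by
  rcases h with h | h
  · exact h.1
  · exact h.1.symm

/-- adjacency on a line `l` -/
theorem AdjD.cases {u v : Vt p} (h : AdjD s r t u v) {l : Pt p} (hl : ln u.1 t = l) :
    (s l u.1.1 = true ∧ s l v.1.1 = false ∧ r l v.1.1 v.2 = u.2 + u.1.1 * v.1.1) ∨
    (s l u.1.1 = false ∧ s l v.1.1 = true ∧ r l u.1.1 u.2 = v.2 + u.1.1 * v.1.1) := by
  rcases h with ⟨h1, h2, h3, h4⟩ | ⟨h1, h2, h3, h4⟩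
  · rw [hl] at h2 h3 h4
    exact Or.inl ⟨h2, h3, h4⟩
  · have h5 : ln v.1 t = l := by
      rw [← hl]
      exact h1
    rw [h5] at h2 h3 h4
    refine Or.inr ⟨h3, h2, ?_⟩
    rw [h4, mul_comm]

theorem AdjD.fst_ne {u v : Vt p} (h : AdjD s r t u v) : u.1 ≠ v.1 := by
  intro he
  rcases h.cases rfl with ⟨h1, h2, _⟩ | ⟨h1, h2, _⟩
  · rw [he] at h1 h2
    rw [h1] at h2
    exact absurd h2 (by decide)
  · rw [he] at h1 h2
    rw [h1] at h2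
    exact absurd h2 (by decide)

variable [Fact p.Prime]

/-- perfect matchings between the fibres -/
theorem fib_ne {t' : ZMod p} {u v w : Vt p} (h : AdjD s r t u w) (h' : AdjD s r t' w v)
    (hne : u ≠ v) : u.1 ≠ v.1 := by
  intro he
  apply hne
  have hc := h.coll
  have hc' := h'.symm.coll
  rw [← he] at hc'
  have ht : t = t' := hc.unique hc' h.fst_ne
  subst ht
  have h2 := h'.symm
  have e1 := h.cases rfl
  have e2 := h2.cases (l := ln u.1 t) (by rw [he])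
  refine Prod.ext he ?_
  rw [← he] at e2
  rcases e1 with ⟨a1, a2, a3⟩ | ⟨a1, a2, a3⟩
  · rcases e2 with ⟨b1, b2, b3⟩ | ⟨b1, b2, b3⟩
    · rw [a3] at b3
      exact add_right_cancel b3
    · rw [a1] at b1
      exact absurd b1 (by decide)
  · rcases e2 with ⟨b1, b2, b3⟩ | ⟨b1, b2, b3⟩
    · rw [a1] at b1
      exact absurd b1 (by decide)
    · rw [← b3] at a3
      exact (r _ _).injective a3

theorem no3 {t1 t2 t3 : ZMod p} {u v w : Vt p} (h1 : AdjD s r t1 u v) (h2 : AdjD s r t2 v w)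
    (h3 : AdjD s r t3 w u) : False := by
  obtain ⟨e1, e2⟩ := tri h1.coll h2.coll h3.coll h1.fst_ne h2.fst_ne h3.fst_ne
  subst e2 e1
  have l2 : ln v.1 t1 = ln u.1 t1 := h1.coll.symm
  have l3 : ln w.1 t1 = ln u.1 t1 := h3.coll
  rcases h1.cases rfl with ⟨a1, a2, _⟩ | ⟨a1, a2, _⟩ <;>
  rcases h2.cases l2 with ⟨b1, b2, _⟩ | ⟨b1, b2, _⟩ <;>
  rcases h3.cases l3 with ⟨d1, d2, _⟩ | ⟨d1, d2, _⟩ <;>
  simp_all

theorem no4 (hp : p ≠ 2) {t1 t2 t3 t4 : ZMod p} {u1 u2 u3 u4 : Vt p} (h1 : AdjD s r t1 u1 u2)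
    (h2 : AdjD s r t2 u2 u3) (h3 : AdjD s r t3 u3 u4) (h4 : AdjD s r t4 u4 u1)
    (n13 : u1 ≠ u3) (n24 : u2 ≠ u4) : False := by
  have m13 := fib_ne h1 h2 n13
  have m24 := fib_ne h2 h3 n24
  obtain ⟨e1, e2, e3⟩ := quad hp h1.coll h2.coll h3.coll h4.coll h1.fst_ne h2.fst_ne h3.fst_ne
    h4.fst_ne m13 m24
  subst e3 e2 e1
  have l2 : ln u2.1 t1 = ln u1.1 t1 := h1.coll.symm
  have l3 : ln u3.1 t1 = ln u1.1 t1 := (h3.coll.trans h4.coll)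
  have l4 : ln u4.1 t1 = ln u1.1 t1 := h4.coll
  have q1 := h1.cases rfl
  have q2 := h2.cases l2
  have q3 := h3.cases l3
  have q4 := h4.cases l4
  have z13 : u1.1.1 - u3.1.1 ≠ 0 := sub_ne_zero.2 ((h1.coll.trans h2.coll).fst_ne m13)
  have z24 : u2.1.1 - u4.1.1 ≠ 0 := sub_ne_zero.2 ((h2.coll.trans h3.coll).fst_ne m24)
  rcases q1 with ⟨a1, a2, a3⟩ | ⟨a1, a2, a3⟩
  · rcases q2 with ⟨b1, b2, b3⟩ | ⟨b1, b2, b3⟩
    · rw [a2] at b1
      exact absurd b1 (by decide)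
    rcases q3 with ⟨c1, c2, c3⟩ | ⟨c1, c2, c3⟩
    · rcases q4 with ⟨d1, d2, d3⟩ | ⟨d1, d2, d3⟩
      · rw [a1] at d2
        exact absurd d2 (by decide)
      have e : (u1.1.1 - u3.1.1) * (u2.1.1 - u4.1.1) = 0 := by
        have f1 := a3.symm.trans b3
        have f2 := c3.symm.trans d3
        linear_combination f1 + f2
      exact mul_ne_zero z13 z24 e
    · rw [b2] at c1
      exact absurd c1 (by decide)
  · rcases q2 with ⟨b1, b2, b3⟩ | ⟨b1, b2, b3⟩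
    · rcases q3 with ⟨c1, c2, c3⟩ | ⟨c1, c2, c3⟩
      · rw [b2] at c1
        exact absurd c1 (by decide)
      rcases q4 with ⟨d1, d2, d3⟩ | ⟨d1, d2, d3⟩
      · have e : (u1.1.1 - u3.1.1) * (u2.1.1 - u4.1.1) = 0 := by
          have f1 := b3.symm.trans c3
          have f2 := d3.symm.trans a3
          linear_combination -f1 - f2
        exact mul_ne_zero z13 z24 e
      · rw [a1] at d2
        exact absurd d2 (by decide)
    · rw [a2] at b1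
      exact absurd b1 (by decide)

theorem no5 (hp : p ≠ 2) {t1 t2 t3 t4 t5 : ZMod p} {u1 u2 u3 u4 u5 : Vt p}
    (h1 : AdjD s r t1 u1 u2) (h2 : AdjD s r t2 u2 u3) (h3 : AdjD s r t3 u3 u4)
    (h4 : AdjD s r t4 u4 u5) (h5 : AdjD s r t5 u5 u1)
    (n13 : u1 ≠ u3) (n24 : u2 ≠ u4) (n35 : u3 ≠ u5) (n41 : u4 ≠ u1) (n52 : u5 ≠ u2) :
    False := by
  obtain ⟨e1, e2, e3, e4⟩ := pent hp h1.coll h2.coll h3.coll h4.coll h5.coll h1.fst_ne h2.fst_ne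
    h3.fst_ne h4.fst_ne h5.fst_ne (fib_ne h1 h2 n13) (fib_ne h2 h3 n24) (fib_ne h3 h4 n35)
    (fib_ne h4 h5 n41) (fib_ne h5 h1 n52)
  subst e4 e3 e2 e1
  have l2 : ln u2.1 t1 = ln u1.1 t1 := h1.coll.symm
  have l3 : ln u3.1 t1 = ln u1.1 t1 := (h1.coll.trans h2.coll).symm
  have l4 : ln u4.1 t1 = ln u1.1 t1 := h4.coll.trans h5.coll
  have l5 : ln u5.1 t1 = ln u1.1 t1 := h5.coll
  rcases h1.cases rfl with ⟨a1, a2, _⟩ | ⟨a1, a2, _⟩ <;>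
  rcases h2.cases l2 with ⟨b1, b2, _⟩ | ⟨b1, b2, _⟩ <;>
  rcases h3.cases l3 with ⟨c1, c2, _⟩ | ⟨c1, c2, _⟩ <;>
  rcases h4.cases l4 with ⟨d1, d2, _⟩ | ⟨d1, d2, _⟩ <;>
  rcases h5.cases l5 with ⟨f1, f2, _⟩ | ⟨f1, f2, _⟩ <;>
  simp_all

end

/-- No cycles of length 3, 4, 5. -/
def NoShort {V : Type} (G : SimpleGraph V) : Prop :=
  (∀ a b c, G.Adj a b → G.Adj b c → G.Adj c a → False) ∧
  (∀ a b c d, G.Adj a b → G.Adj b c → G.Adj c d → G.Adj d a → a ≠ c → b ≠ d → False) ∧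
  (∀ a b c d e, G.Adj a b → G.Adj b c → G.Adj c d → G.Adj d e → G.Adj e a → a ≠ c → b ≠ d →
    c ≠ e → d ≠ a → e ≠ b → False)

/-- Every cut has at most `K` edges. -/
def CutLe {V : Type} (G : SimpleGraph V) (K : ℝ) : Prop :=
  ∀ S : Set V, (({q : V × V | q.1 ∈ S ∧ q.2 ∉ S ∧ G.Adj q.1 q.2}.ncard : ℕ) : ℝ) ≤ K

/-- There is a graph with `m` edges, without short cycles, all cuts at most `m / 2 + K`. -/
def Good (m : ℕ) (K : ℝ) : Prop :=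
  ∃ (V : Type) (_ : Fintype V) (G : SimpleGraph V), {q : V × V | G.Adj q.1 q.2}.ncard = 2 * m ∧
    NoShort G ∧ CutLe G (m / 2 + K)

theorem gr_noShort [Fact p.Prime] (hp : p ≠ 2) (s : Pt p → ZMod p → Bool)
    (r : Pt p → ZMod p → Equiv.Perm (ZMod p)) : NoShort (gr s r) := by
  refine ⟨?_, ?_, ?_⟩
  · rintro a b c ⟨t1, h1⟩ ⟨t2, h2⟩ ⟨t3, h3⟩
    exact no3 h1 h2 h3
  · rintro a b c d ⟨t1, h1⟩ ⟨t2, h2⟩ ⟨t3, h3⟩ ⟨t4, h4⟩ n1 n2
    exact no4 hp h1 h2 h3 h4 n1 n2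
  · rintro a b c d e ⟨t1, h1⟩ ⟨t2, h2⟩ ⟨t3, h3⟩ ⟨t4, h4⟩ ⟨t5, h5⟩ n1 n2 n3 n4 n5
    exact no5 hp h1 h2 h3 h4 h5 n1 n2 n3 n4 n5

end Pool.Agent.MC.H74
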