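import Pool.Agent.Helper74_MC.Sides

/-!
# The affine plane inequality
-/

set_option autoImplicit false

namespace Pool.Agent.MC.H74

variable {p : ℕ} [Fact p.Prime]

instance decPt : DecidableEq (Pt p) := inferInstance

instance decVt : DecidableEq (Vt p) := inferInstance

instance decFl : DecidableEq (Pt p × ZMod p) := inferInstance

noncomputable instance finR : Fintype (Pt p × ZMod p → Equiv.Perm (ZMod p)) :=
  @Pi.instFintype _ _ decFl _ _

theorem norm_eq (y : ZMod p → ZMod p → ℝ) (hy : ∀ L, ∑ g, y L g = 0) :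
    ∑ M : ZMod p, ∑ u : ZMod p, (∑ L : ZMod p, y L (u - L * M)) ^ 2 =
      (p : ℝ) * ∑ L : ZMod p, ∑ g : ZMod p, y L g ^ 2 := by
  have h1 : ∀ M u : ZMod p, (∑ L : ZMod p, y L (u - L * M)) ^ 2 =
      ∑ L : ZMod p, ∑ L' : ZMod p, y L (u - L * M) * y L' (u - L' * M) := by
    intro M u
    rw [sq, Finset.sum_mul_sum]
  simp only [h1]
  have h2 : ∑ M : ZMod p, ∑ u : ZMod p, ∑ L : ZMod p, ∑ L' : ZMod p,
      y L (u - L * M) * y L' (u - L' * M) =
      ∑ L : ZMod p, ∑ L' : ZMod p, ∑ M : ZMod p, ∑ u : ZMod p,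
        y L (u - L * M) * y L' (u - L' * M) := by
    calc _ = ∑ M : ZMod p, ∑ L : ZMod p, ∑ L' : ZMod p, ∑ u : ZMod p,
        y L (u - L * M) * y L' (u - L' * M) := by
          apply Finset.sum_congr rfl
          intro M _
          rw [Finset.sum_comm]
          apply Finset.sum_congr rfl
          intro L _
          rw [Finset.sum_comm]
      _ = _ := by
          rw [Finset.sum_comm]
          apply Finset.sum_congr rfl
          intro L _
          rw [Finset.sum_comm]
  rw [h2, Finset.mul_sum]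
  apply Finset.sum_congr rfl
  intro L _
  have h3 : ∀ L' : ZMod p, L' ≠ L → ∑ M : ZMod p, ∑ u : ZMod p,
      y L (u - L * M) * y L' (u - L' * M) = 0 := by
    intro L' hL
    have h4 : ∀ M : ZMod p, ∑ u : ZMod p, y L (u - L * M) * y L' (u - L' * M) =
        ∑ g : ZMod p, y L g * y L' (g + (L - L') * M) := by
      intro M
      rw [← Equiv.sum_comp (Equiv.addRight (L * M))]
      apply Finset.sum_congr rfl
      intro g _
      simp only [Equiv.coe_addRight, add_sub_cancel_right]
      congr 2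
      ring
    simp only [h4]
    rw [Finset.sum_comm]
    apply Finset.sum_eq_zero
    intro g _
    rw [← Finset.mul_sum]
    have h5 : ∑ M : ZMod p, y L' (g + (L - L') * M) = 0 := by
      rw [← hy L']
      have hne : L - L' ≠ 0 := sub_ne_zero.2 hL.symm
      exact ((Equiv.mulLeft₀ (L - L') hne).trans (Equiv.addLeft g)).sum_comp (y L')
    rw [h5, mul_zero]
  rw [Finset.sum_eq_single L (fun L' _ hL => h3 L' hL) (fun h => absurd (Finset.mem_univ L) h)]
  have h6 : ∀ M : ZMod p, ∑ u : ZMod p, y L (u - L * M) * y L (u - L * M) =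
      ∑ g : ZMod p, y L g ^ 2 := by
    intro M
    rw [← Equiv.sum_comp (Equiv.addRight (L * M))]
    apply Finset.sum_congr rfl
    intro g _
    simp only [Equiv.coe_addRight, add_sub_cancel_right]
    ring
  simp only [h6, Finset.sum_const, Finset.card_univ, ZMod.card, nsmul_eq_mul]

/-- the centred function -/
noncomputable def cen (x : ZMod p → ℝ) (g : ZMod p) : ℝ := x g - (∑ h, x h) / p

theorem cen_sum (x : ZMod p → ℝ) : ∑ g, cen x g = 0 := by
  have hp0 : (p : ℝ) ≠ 0 := by exact_mod_cast (Fact.out : p.Prime).ne_zero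
  simp only [cen, Finset.sum_sub_distrib, Finset.sum_const, Finset.card_univ, ZMod.card,
    nsmul_eq_mul]
  field_simp
  ring

theorem cen_sq (x : ZMod p → ℝ) : ∑ g, cen x g ^ 2 ≤ ∑ g, x g ^ 2 := by
  have hp0 : (0 : ℝ) < p := by exact_mod_cast (Fact.out : p.Prime).pos
  have h1 : ∑ g, cen x g ^ 2 = ∑ g, x g ^ 2 - (∑ h, x h) ^ 2 / p := by
    have : ∀ g, cen x g ^ 2 = x g ^ 2 - 2 * ((∑ h, x h) / p) * x g + ((∑ h, x h) / p) ^ 2 := by
      intro g
      unfold cen
      ring
    simp only [this, Finset.sum_add_distrib, Finset.sum_sub_distrib, ← Finset.mul_sum,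
      Finset.sum_const, Finset.card_univ, ZMod.card, nsmul_eq_mul]
    field_simp
    ring
  rw [h1]
  have : 0 ≤ (∑ h, x h) ^ 2 / (p : ℝ) := by positivity
  linarith

/-- The permutation inequality. -/
def SliceStmt : Prop := ∀ (F : Type) [Fintype F] [DecidableEq F] (a x : F → ℝ),
  ∑ h, a h = 0 → (∀ h, x h = 1 ∨ x h = -1) →
  ∑ π : Equiv.Perm F, Real.exp (∑ h, a h * x (π h)) ≤
    (Fintype.card (Equiv.Perm F) : ℝ) * Real.exp (4 * ∑ h, a h ^ 2)

/-- The plus part of the line `l` seen from the label `u` at `M`. -/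
noncomputable def Zf (s : Pt p → ZMod p → Bool) (X : Vt p → ℝ) (l : Pt p) (M u : ZMod p) : ℝ :=
  ∑ L : ZMod p, (if s l L then cen (fun g => X (pt l L, g)) (u - L * M) else 0)

theorem Zf_sum (s : Pt p → ZMod p → Bool) (X : Vt p → ℝ) (l : Pt p) (M : ZMod p) :
    ∑ u, Zf s X l M u = 0 := by
  unfold Zf
  rw [Finset.sum_comm]
  apply Finset.sum_eq_zero
  intro L _
  split_ifs
  · rw [← Equiv.sum_comp (Equiv.addRight (L * M))]
    simp only [Equiv.coe_addRight, add_sub_cancel_right]
    exact cen_sum _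
  · simp

theorem Zf_norm (s : Pt p → ZMod p → Bool) (X : Vt p → ℝ) (hX : ∀ v, X v = 1 ∨ X v = -1)
    (l : Pt p) : ∑ M, ∑ u, Zf s X l M u ^ 2 ≤ (p : ℝ) ^ 3 := by
  have h1 := norm_eq (fun L g => if s l L then cen (fun g => X (pt l L, g)) g else 0) (by
    intro L
    split_ifs
    · exact cen_sum _
    · simp)
  unfold Zf
  rw [h1]
  have h2 : ∀ L : ZMod p, ∑ g : ZMod p,
      (if s l L then cen (fun g => X (pt l L, g)) g else 0) ^ 2 ≤ (p : ℝ) := by
    intro L
    split_ifs
    · refine (cen_sq _).trans ?_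
      have : ∀ g, X (pt l L, g) ^ 2 = 1 := by
        intro g
        rcases hX (pt l L, g) with h | h <;> rw [h] <;> norm_num
      simp only [this, Finset.sum_const, Finset.card_univ, ZMod.card, nsmul_eq_mul, mul_one]
      exact le_rfl
    · simp
  calc (p : ℝ) * ∑ L : ZMod p, ∑ g : ZMod p,
      (if s l L then cen (fun g => X (pt l L, g)) g else 0) ^ 2
      ≤ (p : ℝ) * ∑ _L : ZMod p, (p : ℝ) :=
        mul_le_mul_of_nonneg_left (Finset.sum_le_sum fun L _ => h2 L) (by positivity)
    _ = (p : ℝ) ^ 3 := by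
        simp only [Finset.sum_const, Finset.card_univ, ZMod.card, nsmul_eq_mul]
        ring

/-- The fluctuation part. -/
noncomputable def Wf (s : Pt p → ZMod p → Bool) (r : Pt p × ZMod p → Equiv.Perm (ZMod p)) (X : Vt p → ℝ) : ℝ :=
  ∑ l : Pt p, ∑ M : ZMod p, (if s l M then 0 else
    ∑ u : ZMod p, Zf s X l M u * X (pt l M, (r (l, M)).symm u))

theorem fluc (hS : SliceStmt) (s : Pt p → ZMod p → Bool) :
    ∃ r : Pt p × ZMod p → Equiv.Perm (ZMod p), ∀ X : Vt p → ℝ, (∀ v, X v = 1 ∨ X v = -1) →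
      -(5 * (p : ℝ) ^ 7) ≤ Wf s r X := by
  have hp0 : (0 : ℝ) < p := by exact_mod_cast (Fact.out : p.Prime).pos
  have hcard : Fintype.card (Pt p) = p ^ 5 := by
    simp only [Pt, Fintype.card_prod, ZMod.card]
    ring
  have hcardV : Fintype.card (Vt p) = p ^ 6 := by
    simp only [Vt, Fintype.card_prod, ZMod.card]
    ring
  -- the function on each flag
  let f : (Vt p → ℝ) → Pt p × ZMod p → Equiv.Perm (ZMod p) → ℝ := fun X lM π =>
    Real.exp (∑ u : ZMod p, (if s lM.1 lM.2 then 0 else -(1 / (p : ℝ)) * Zf s X lM.1 lM.2 u) *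
      X (pt lM.1 lM.2, π.symm u))
  have hf : ∀ X : Vt p → ℝ, ∀ r : Pt p × ZMod p → Equiv.Perm (ZMod p),
      Real.exp (-(1 / (p : ℝ)) * Wf s r X) = ∏ lM, f X lM (r lM) := by
    intro X r
    simp only [f]
    rw [← Real.exp_sum]
    congr 1
    rw [Fintype.sum_prod_type]
    unfold Wf
    rw [Finset.mul_sum]
    apply Finset.sum_congr rfl
    intro l _
    rw [Finset.mul_sum]
    apply Finset.sum_congr rfl
    intro M _
    split_ifs
    · simp
    · rw [Finset.mul_sum]
      apply Finset.sum_congr rfl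
      intro u _
      ring
  have hfl : ∀ X : Vt p → ℝ, (∀ v, X v = 1 ∨ X v = -1) → ∀ lM : Pt p × ZMod p,
      ∑ π, f X lM π ≤ (Fintype.card (Equiv.Perm (ZMod p)) : ℝ) *
        Real.exp (4 / (p : ℝ) ^ 2 * ∑ u, Zf s X lM.1 lM.2 u ^ 2) := by
    intro X hX lM
    have h1 := hS (ZMod p) (fun u => if s lM.1 lM.2 then 0 else
        -(1 / (p : ℝ)) * Zf s X lM.1 lM.2 u) (fun h => X (pt lM.1 lM.2, h)) (by
          split_ifs
          · simp
          · rw [← Finset.mul_sum, Zf_sum, mul_zero]) (fun h => hX _)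
    have h2 : ∑ π, f X lM π = ∑ π : Equiv.Perm (ZMod p), Real.exp (∑ h,
        (if s lM.1 lM.2 then 0 else -(1 / (p : ℝ)) * Zf s X lM.1 lM.2 h) *
          X (pt lM.1 lM.2, π h)) := by
      rw [← Equiv.sum_comp (Equiv.inv (Equiv.Perm (ZMod p)))]
      rfl
    rw [h2]
    refine h1.trans ?_
    apply mul_le_mul_of_nonneg_left _ (by positivity)
    apply Real.exp_le_exp.2
    split_ifs
    · simp only [ne_eq, OfNat.ofNat_ne_zero, not_false_eq_true, zero_pow, Finset.sum_const_zero,
        mul_zero]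
      positivity
    · have : ∀ h, (-(1 / (p : ℝ)) * Zf s X lM.1 lM.2 h) ^ 2 =
          1 / (p : ℝ) ^ 2 * Zf s X lM.1 lM.2 h ^ 2 := by
        intro h
        field_simp
      simp only [this, ← Finset.mul_sum]
      apply le_of_eq
      ring
  obtain ⟨r, hr⟩ := avg (A := Pt p × ZMod p → Equiv.Perm (ZMod p)) (B := Vt p → Bool)
    (fun r X => Real.exp (-(1 / (p : ℝ)) * Wf s r (fun v => sg (X v))))
    (Real.exp (4 * (p : ℝ) ^ 6)) (fun _ _ => (Real.exp_pos _).le) (by
      intro X
      have hX : ∀ v, sg (X v) = 1 ∨ sg (X v) = -1 := by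
        intro v
        cases X v <;> simp [sg]
      simp only [hf]
      have h1 := Finset.prod_univ_sum (R := ℝ)
        (fun _ : Pt p × ZMod p => (Finset.univ : Finset (Equiv.Perm (ZMod p))))
        (fun lM π => f (fun v => sg (X v)) lM π)
      rw [Fintype.piFinset_univ] at h1
      rw [← h1]
      calc ∏ lM : Pt p × ZMod p, ∑ π, f (fun v => sg (X v)) lM π
          ≤ ∏ lM : Pt p × ZMod p, ((Fintype.card (Equiv.Perm (ZMod p)) : ℝ) *
            Real.exp (4 / (p : ℝ) ^ 2 * ∑ u, Zf s (fun v => sg (X v)) lM.1 lM.2 u ^ 2)) := by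
            apply Finset.prod_le_prod
            · intro lM _
              exact Finset.sum_nonneg fun π _ => (Real.exp_pos _).le
            · intro lM _
              exact hfl _ hX lM
        _ = (Fintype.card (Pt p × ZMod p → Equiv.Perm (ZMod p)) : ℝ) *
            Real.exp (∑ lM : Pt p × ZMod p,
              4 / (p : ℝ) ^ 2 * ∑ u, Zf s (fun v => sg (X v)) lM.1 lM.2 u ^ 2) := by
            rw [Finset.prod_mul_distrib, Finset.prod_const, Finset.card_univ, Fintype.card_fun,
              ← Real.exp_sum]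
            push_cast
            rfl
        _ ≤ _ := by
            apply mul_le_mul_of_nonneg_left _ (by positivity)
            apply Real.exp_le_exp.2
            rw [← Finset.mul_sum, Fintype.sum_prod_type]
            have h3 : ∑ l : Pt p, ∑ M : ZMod p, ∑ u, Zf s (fun v => sg (X v)) l M u ^ 2 ≤
                ∑ _l : Pt p, (p : ℝ) ^ 3 := Finset.sum_le_sum fun l _ => Zf_norm s _ hX l
            rw [Finset.sum_const, Finset.card_univ, hcard, nsmul_eq_mul] at h3
            push_cast at h3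
            calc 4 / (p : ℝ) ^ 2 * ∑ l : Pt p, ∑ M : ZMod p, ∑ u,
                Zf s (fun v => sg (X v)) l M u ^ 2
                ≤ 4 / (p : ℝ) ^ 2 * ((p : ℝ) ^ 5 * (p : ℝ) ^ 3) :=
                  mul_le_mul_of_nonneg_left h3 (by positivity)
              _ = 4 * (p : ℝ) ^ 6 := by
                  field_simp)
  refine ⟨r, fun X hX => ?_⟩
  have h3 := hr (fun x => decide (X x = 1))
  have h4 : ∀ x, sg (decide (X x = 1)) = X x := by
    intro x
    rcases hX x with h | h
    · simp [sg, h]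
    · have : ¬ X x = 1 := by rw [h]; norm_num
      simp [sg, h]
      norm_num
  simp only [h4] at h3
  rw [Fintype.card_fun, hcardV, Fintype.card_bool] at h3
  have h5 : ((2 ^ p ^ 6 : ℕ) : ℝ) ≤ Real.exp ((p ^ 6 : ℕ) * (7 / 10)) := by
    rw [Real.exp_nat_mul]
    push_cast
    apply pow_le_pow_left₀ (by norm_num)
    rw [← Real.log_le_iff_le_exp (by norm_num)]
    have := Real.log_two_lt_d9
    linarith
  have h6 : Real.exp (-(1 / (p : ℝ)) * Wf s r X)
      ≤ Real.exp ((p ^ 6 : ℕ) * (7 / 10) + 4 * (p : ℝ) ^ 6) := by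
    rw [Real.exp_add]
    exact h3.trans (mul_le_mul_of_nonneg_right h5 (Real.exp_pos _).le)
  rw [Real.exp_le_exp] at h6
  push_cast at h6
  have h7 := mul_le_mul_of_nonneg_left h6 hp0.le
  have h8 : (p : ℝ) * (-(1 / (p : ℝ)) * Wf s r X) = - Wf s r X := by
    field_simp
  rw [h8] at h7
  have : 0 ≤ (p : ℝ) ^ 7 := by positivity
  nlinarith

end Pool.Agent.MC.H74
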