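import Pool.Agent.Helper74_MC.Geo

/-!
# Words of length five
-/

set_option autoImplicit false

namespace Pool.Agent.MC.H74

variable {p : ℕ} [Fact p.Prime]

theorem pent_identity {K : Type} [Field K] {a b c d e m : K}
    (hab : a - b ≠ 0) (hac : a - c ≠ 0) (had : a - d ≠ 0) (hae : a - e ≠ 0) (hbc : b - c ≠ 0)
    (hbd : b - d ≠ 0) (hbe : b - e ≠ 0) (hcd : c - d ≠ 0) (hce : c - e ≠ 0) (hde : d - e ≠ 0) :
    (m / ((a - b) * (a - c) * (a - d) * (a - e))) *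
        (-m / ((a - b) * (b - c) * (b - d) * (b - e))) * (b - a) ^ 3 +
      (m / ((a - b) * (a - c) * (a - d) * (a - e))) *
        (m / ((a - c) * (b - c) * (c - d) * (c - e))) * (c - a) ^ 3 +
      (m / ((a - b) * (a - c) * (a - d) * (a - e))) *
        (-m / ((a - d) * (b - d) * (c - d) * (d - e))) * (d - a) ^ 3 +
      (m / ((a - b) * (a - c) * (a - d) * (a - e))) *
        (m / ((a - e) * (b - e) * (c - e) * (d - e))) * (e - a) ^ 3 +
      (-m / ((a - b) * (b - c) * (b - d) * (b - e))) *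
        (m / ((a - c) * (b - c) * (c - d) * (c - e))) * (c - b) ^ 3 +
      (-m / ((a - b) * (b - c) * (b - d) * (b - e))) *
        (-m / ((a - d) * (b - d) * (c - d) * (d - e))) * (d - b) ^ 3 +
      (-m / ((a - b) * (b - c) * (b - d) * (b - e))) *
        (m / ((a - e) * (b - e) * (c - e) * (d - e))) * (e - b) ^ 3 +
      (m / ((a - c) * (b - c) * (c - d) * (c - e))) *
        (-m / ((a - d) * (b - d) * (c - d) * (d - e))) * (d - c) ^ 3 +
      (m / ((a - c) * (b - c) * (c - d) * (c - e))) *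
        (m / ((a - e) * (b - e) * (c - e) * (d - e))) * (e - c) ^ 3 +
      (-m / ((a - d) * (b - d) * (c - d) * (d - e))) *
        (m / ((a - e) * (b - e) * (c - e) * (d - e))) * (e - d) ^ 3 =
    -2 * m ^ 2 / ((a - c) * (b - d) * (c - e) * (a - d) * (b - e)) := by
  field_simp
  ring

theorem two_ne (hp : p ≠ 2) : (2 : ZMod p) ≠ 0 := by
  intro h
  have h' : ((2 : ℕ) : ZMod p) = 0 := by exact_mod_cast h
  rw [ZMod.natCast_eq_zero_iff] at h'
  exact hp ((Nat.prime_dvd_prime_iff_eq (Fact.out : p.Prime) Nat.prime_two).1 h')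

theorem word5_dist (hp : p ≠ 2) {l1 l2 l3 l4 l5 a b c d e : ZMod p} (h1 : l1 ≠ 0)
    (m0 : l1 + l2 + l3 + l4 + l5 = 0) (m1 : l1 * a + l2 * b + l3 * c + l4 * d + l5 * e = 0)
    (m2 : l1 * a ^ 2 + l2 * b ^ 2 + l3 * c ^ 2 + l4 * d ^ 2 + l5 * e ^ 2 = 0)
    (m3 : l1 * a ^ 3 + l2 * b ^ 3 + l3 * c ^ 3 + l4 * d ^ 3 + l5 * e ^ 3 = 0)
    (hc : l1 * l2 * (b - a) ^ 3 + l1 * l3 * (c - a) ^ 3 + l1 * l4 * (d - a) ^ 3 +
      l1 * l5 * (e - a) ^ 3 + l2 * l3 * (c - b) ^ 3 + l2 * l4 * (d - b) ^ 3 +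
      l2 * l5 * (e - b) ^ 3 + l3 * l4 * (d - c) ^ 3 + l3 * l5 * (e - c) ^ 3 +
      l4 * l5 * (e - d) ^ 3 = 0)
    (hab : a - b ≠ 0) (hac : a - c ≠ 0) (had : a - d ≠ 0) (hae : a - e ≠ 0) (hbc : b - c ≠ 0)
    (hbd : b - d ≠ 0) (hbe : b - e ≠ 0) (hcd : c - d ≠ 0) (hce : c - e ≠ 0) (hde : d - e ≠ 0) :
    False := by
  obtain ⟨m, hm⟩ : ∃ m, m = l1 * ((a - b) * (a - c) * (a - d) * (a - e)) := ⟨_, rfl⟩
  have hm0 : m ≠ 0 := by
    rw [hm]
    exact mul_ne_zero h1 (mul_ne_zero (mul_ne_zero (mul_ne_zero hab hac) had) hae)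
  have r1 : l1 = m / ((a - b) * (a - c) * (a - d) * (a - e)) := by
    rw [eq_div_iff (mul_ne_zero (mul_ne_zero (mul_ne_zero hab hac) had) hae), hm]
  have r2 : l2 = -m / ((a - b) * (b - c) * (b - d) * (b - e)) := by
    rw [eq_div_iff (mul_ne_zero (mul_ne_zero (mul_ne_zero hab hbc) hbd) hbe), hm]
    linear_combination (a - b) * (m3 - (c + d + e) * m2 + (c * d + c * e + d * e) * m1 -
      c * d * e * m0)
  have r3 : l3 = m / ((a - c) * (b - c) * (c - d) * (c - e)) := by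
    rw [eq_div_iff (mul_ne_zero (mul_ne_zero (mul_ne_zero hac hbc) hcd) hce), hm]
    linear_combination -(a - c) * (m3 - (b + d + e) * m2 + (b * d + b * e + d * e) * m1 -
      b * d * e * m0)
  have r4 : l4 = -m / ((a - d) * (b - d) * (c - d) * (d - e)) := by
    rw [eq_div_iff (mul_ne_zero (mul_ne_zero (mul_ne_zero had hbd) hcd) hde), hm]
    linear_combination (a - d) * (m3 - (b + c + e) * m2 + (b * c + b * e + c * e) * m1 -
      b * c * e * m0)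
  have r5 : l5 = m / ((a - e) * (b - e) * (c - e) * (d - e)) := by
    rw [eq_div_iff (mul_ne_zero (mul_ne_zero (mul_ne_zero hae hbe) hce) hde), hm]
    linear_combination -(a - e) * (m3 - (b + c + d) * m2 + (b * c + b * d + c * d) * m1 -
      b * c * d * m0)
  have key := pent_identity (m := m) hab hac had hae hbc hbd hbe hcd hce hde
  rw [← r1, ← r2, ← r3, ← r4, ← r5, hc] at key
  have hz : -2 * m ^ 2 / ((a - c) * (b - d) * (c - e) * (a - d) * (b - e)) ≠ 0 := by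
    apply div_ne_zero
    · exact mul_ne_zero (neg_ne_zero.2 (two_ne hp)) (pow_ne_zero _ hm0)
    · exact mul_ne_zero (mul_ne_zero (mul_ne_zero (mul_ne_zero hac hbd) hce) had) hbe
  exact hz key.symm

/-- words of length 5 -/
theorem word5 (hp : p ≠ 2) {l1 l2 l3 l4 l5 t1 t2 t3 t4 t5 : ZMod p} (h1 : l1 ≠ 0) (h2 : l2 ≠ 0)
    (h3 : l3 ≠ 0) (h4 : l4 ≠ 0) (h5 : l5 ≠ 0)
    (m0 : l1 + l2 + l3 + l4 + l5 = 0) (m1 : l1 * t1 + l2 * t2 + l3 * t3 + l4 * t4 + l5 * t5 = 0)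
    (m2 : l1 * t1 ^ 2 + l2 * t2 ^ 2 + l3 * t3 ^ 2 + l4 * t4 ^ 2 + l5 * t5 ^ 2 = 0)
    (m3 : l1 * t1 ^ 3 + l2 * t2 ^ 3 + l3 * t3 ^ 3 + l4 * t4 ^ 3 + l5 * t5 ^ 3 = 0)
    (hc : l1 * l2 * (t2 - t1) ^ 3 + l1 * l3 * (t3 - t1) ^ 3 + l1 * l4 * (t4 - t1) ^ 3 +
      l1 * l5 * (t5 - t1) ^ 3 + l2 * l3 * (t3 - t2) ^ 3 + l2 * l4 * (t4 - t2) ^ 3 +
      l2 * l5 * (t5 - t2) ^ 3 + l3 * l4 * (t4 - t3) ^ 3 + l3 * l5 * (t5 - t3) ^ 3 +
      l4 * l5 * (t5 - t4) ^ 3 = 0)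
    (n12 : t1 ≠ t2) (n23 : t2 ≠ t3) (n34 : t3 ≠ t4) (n45 : t4 ≠ t5) (n51 : t5 ≠ t1) : False := by
  have n13 : t1 ≠ t3 := word5_ne h2 h4 h5 m0 m1 m2 m3 n12 n34 n45 n51
  have n24 : t2 ≠ t4 := word5_ne (l1 := l2) (l2 := l3) (l3 := l4) (l4 := l5) (l5 := l1) h3 h5 h1
    (by linear_combination m0) (by linear_combination m1) (by linear_combination m2)
    (by linear_combination m3) n23 n45 n51 n12
  have n35 : t3 ≠ t5 := word5_ne (l1 := l3) (l2 := l4) (l3 := l5) (l4 := l1) (l5 := l2) h4 h1 h2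
    (by linear_combination m0) (by linear_combination m1) (by linear_combination m2)
    (by linear_combination m3) n34 n51 n12 n23
  have n41 : t4 ≠ t1 := word5_ne (l1 := l4) (l2 := l5) (l3 := l1) (l4 := l2) (l5 := l3) h5 h2 h3
    (by linear_combination m0) (by linear_combination m1) (by linear_combination m2)
    (by linear_combination m3) n45 n12 n23 n34
  have n52 : t5 ≠ t2 := word5_ne (l1 := l5) (l2 := l1) (l3 := l2) (l4 := l3) (l5 := l4) h1 h3 h4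
    (by linear_combination m0) (by linear_combination m1) (by linear_combination m2)
    (by linear_combination m3) n51 n23 n34 n45
  exact word5_dist hp h1 m0 m1 m2 m3 hc (sub_ne_zero.2 n12) (sub_ne_zero.2 n13)
    (sub_ne_zero.2 n41.symm) (sub_ne_zero.2 n51.symm) (sub_ne_zero.2 n23) (sub_ne_zero.2 n24)
    (sub_ne_zero.2 n52.symm) (sub_ne_zero.2 n34) (sub_ne_zero.2 n35) (sub_ne_zero.2 n45)

end Pool.Agent.MC.H74
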