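import Pool.Agent.Helper74_MC.Pent

/-!
# Closed polygons of collinear points
-/

set_option autoImplicit false

namespace Pool.Agent.MC.H74

variable {p : ℕ} [Fact p.Prime]

theorem tri {x1 x2 x3 : Pt p} {t1 t2 t3 : ZMod p} (c1 : Coll t1 x1 x2) (c2 : Coll t2 x2 x3)
    (c3 : Coll t3 x3 x1) (n1 : x1 ≠ x2) (n2 : x2 ≠ x3) (n3 : x3 ≠ x1) : t1 = t2 ∧ t2 = t3 := by
  by_cases h12 : t1 = t2
  · subst h12
    exact ⟨rfl, (c1.trans c2).symm.unique c3 n3⟩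
  by_cases h23 : t2 = t3
  · subst h23
    exact ⟨(c2.trans c3).symm.unique c1 n1 |>.symm, rfl⟩
  by_cases h31 : t3 = t1
  · subst h31
    have := (c3.trans c1).symm.unique c2 n2
    exact absurd this h12
  exfalso
  obtain ⟨a1, a2, a3, a4⟩ := c1.eqs
  obtain ⟨b1, b2, b3, b4⟩ := c2.eqs
  obtain ⟨d1, d2, d3, d4⟩ := c3.eqs
  have h0 := c1.fst_ne n1
  refine word3 (l1 := x2.1 - x1.1) (l2 := x3.1 - x2.1) (l3 := x1.1 - x3.1) (t1 := t1) (t2 := t2)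
    (t3 := t3) (sub_ne_zero.2 h0.symm) (by ring) ?_ ?_ h12 h31
  · linear_combination -a1 - b1 - d1
  · linear_combination -a2 - b2 - d2

theorem quad (hp : p ≠ 2) {x1 x2 x3 x4 : Pt p} {t1 t2 t3 t4 : ZMod p} (c1 : Coll t1 x1 x2)
    (c2 : Coll t2 x2 x3) (c3 : Coll t3 x3 x4) (c4 : Coll t4 x4 x1) (n1 : x1 ≠ x2) (n2 : x2 ≠ x3)
    (n3 : x3 ≠ x4) (n4 : x4 ≠ x1) (n13 : x1 ≠ x3) (n24 : x2 ≠ x4) :
    t1 = t2 ∧ t2 = t3 ∧ t3 = t4 := by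
  by_cases h12 : t1 = t2
  · subst h12
    obtain ⟨e1, e2⟩ := tri (c1.trans c2) c3 c4 n13 n3 n4
    exact ⟨rfl, e1, e2⟩
  by_cases h23 : t2 = t3
  · subst h23
    obtain ⟨e1, e2⟩ := tri (c2.trans c3) c4 c1 n24 n4 n1
    exact ⟨(e1.trans e2).symm, rfl, e1⟩
  by_cases h34 : t3 = t4
  · subst h34
    obtain ⟨e1, e2⟩ := tri (c3.trans c4) c1 c2 n13.symm n1 n2
    exact ⟨e2, (e1.trans e2).symm, rfl⟩
  by_cases h41 : t4 = t1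
  · subst h41
    obtain ⟨e1, e2⟩ := tri (c4.trans c1) c2 c3 n24.symm n2 n3
    exact ⟨e1, e2, (e1.trans e2).symm⟩
  exfalso
  obtain ⟨a1, a2, a3, a4⟩ := c1.eqs
  obtain ⟨b1, b2, b3, b4⟩ := c2.eqs
  obtain ⟨d1, d2, d3, d4⟩ := c3.eqs
  obtain ⟨f1, f2, f3, f4⟩ := c4.eqs
  refine word4 hp (l1 := x2.1 - x1.1) (l2 := x3.1 - x2.1) (l3 := x4.1 - x3.1)
    (l4 := x1.1 - x4.1) (t1 := t1) (t2 := t2) (t3 := t3) (t4 := t4)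
    (sub_ne_zero.2 (c1.fst_ne n1).symm) (sub_ne_zero.2 (c2.fst_ne n2).symm) (by ring) ?_ ?_ ?_ ?_
    h12 h23 h34 h41
  · linear_combination -a1 - b1 - d1 - f1
  · linear_combination -a2 - b2 - d2 - f2
  · linear_combination -a3 - b3 - d3 - f3
  · simp only [omt] at a4 b4 d4 f4
    rw [d4, b4, a4] at f4
    obtain ⟨u0, u1, u2, u3, uz⟩ := x1
    obtain ⟨v0, v1, v2, v3, vz⟩ := x2
    obtain ⟨w0, w1, w2, w3, wz⟩ := x3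
    obtain ⟨y0, y1, y2, y3, yz⟩ := x4
    simp only at *
    subst a1 a2 a3 b1 b2 b3 d1 d2 d3
    linear_combination -f4 + u0 * f3 - 3 * u1 * f2 + 3 * u2 * f1

theorem pent (hp : p ≠ 2) {x1 x2 x3 x4 x5 : Pt p} {t1 t2 t3 t4 t5 : ZMod p}
    (c1 : Coll t1 x1 x2) (c2 : Coll t2 x2 x3) (c3 : Coll t3 x3 x4) (c4 : Coll t4 x4 x5)
    (c5 : Coll t5 x5 x1) (n1 : x1 ≠ x2) (n2 : x2 ≠ x3) (n3 : x3 ≠ x4) (n4 : x4 ≠ x5)
    (n5 : x5 ≠ x1) (n13 : x1 ≠ x3) (n24 : x2 ≠ x4) (n35 : x3 ≠ x5) (n41 : x4 ≠ x1)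
    (n52 : x5 ≠ x2) :
    t1 = t2 ∧ t2 = t3 ∧ t3 = t4 ∧ t4 = t5 := by
  by_cases h12 : t1 = t2
  · subst h12
    obtain ⟨e1, e2, e3⟩ := quad hp (c1.trans c2) c3 c4 c5 n13 n3 n4 n5 n41.symm n35
    exact ⟨rfl, e1, e2, e3⟩
  by_cases h23 : t2 = t3
  · subst h23
    obtain ⟨e1, e2, e3⟩ := quad hp (c2.trans c3) c4 c5 c1 n24 n4 n5 n1 n52.symm n41
    exact ⟨((e1.trans e2).trans e3).symm, rfl, e1, e2⟩
  by_cases h34 : t3 = t4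
  · subst h34
    obtain ⟨e1, e2, e3⟩ := quad hp (c3.trans c4) c5 c1 c2 n35 n5 n1 n2 n13.symm n52
    exact ⟨e3, ((e1.trans e2).trans e3).symm, rfl, e1⟩
  by_cases h45 : t4 = t5
  · subst h45
    obtain ⟨e1, e2, e3⟩ := quad hp (c4.trans c5) c1 c2 c3 n41 n1 n2 n3 n24.symm n13
    exact ⟨e2, e3, ((e1.trans e2).trans e3).symm, rfl⟩
  by_cases h51 : t5 = t1
  · subst h51
    obtain ⟨e1, e2, e3⟩ := quad hp (c5.trans c1) c2 c3 c4 n52 n2 n3 n4 n35.symm n24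
    exact ⟨e1, e2, e3, ((e1.trans e2).trans e3).symm⟩
  exfalso
  obtain ⟨a1, a2, a3, a4⟩ := c1.eqs
  obtain ⟨b1, b2, b3, b4⟩ := c2.eqs
  obtain ⟨d1, d2, d3, d4⟩ := c3.eqs
  obtain ⟨f1, f2, f3, f4⟩ := c4.eqs
  obtain ⟨g1, g2, g3, g4⟩ := c5.eqs
  refine word5 hp (l1 := x2.1 - x1.1) (l2 := x3.1 - x2.1) (l3 := x4.1 - x3.1)
    (l4 := x5.1 - x4.1) (l5 := x1.1 - x5.1) (t1 := t1) (t2 := t2) (t3 := t3) (t4 := t4)
    (t5 := t5)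
    (sub_ne_zero.2 (c1.fst_ne n1).symm) (sub_ne_zero.2 (c2.fst_ne n2).symm)
    (sub_ne_zero.2 (c3.fst_ne n3).symm) (sub_ne_zero.2 (c4.fst_ne n4).symm)
    (sub_ne_zero.2 (c5.fst_ne n5).symm) (by ring) ?_ ?_ ?_ ?_
    h12 h23 h34 h45 h51
  · linear_combination -a1 - b1 - d1 - f1 - g1
  · linear_combination -a2 - b2 - d2 - f2 - g2
  · linear_combination -a3 - b3 - d3 - f3 - g3
  · simp only [omt] at a4 b4 d4 f4 g4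
    clear c1 c2 c3 c4 c5 n1 n2 n3 n4 n5 n13 n24 n35 n41 n52
    obtain ⟨u0, u1, u2, u3, uz⟩ := x1
    obtain ⟨v0, v1, v2, v3, vz⟩ := x2
    obtain ⟨w0, w1, w2, w3, wz⟩ := x3
    obtain ⟨y0, y1, y2, y3, yz⟩ := x4
    obtain ⟨s0, s1, s2, s3, sz⟩ := x5
    simp only at *
    subst a1 a2 a3 b1 b2 b3 d1 d2 d3 f1 f2 f3
    rw [f4, d4, b4, a4] at g4
    linear_combination -g4 + u0 * g3 - 3 * u1 * g2 + 3 * u2 * g1

end Pool.Agent.MC.H74
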