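import Pool.Agent.Helper74_MC.Gr

/-!
# Choice of the sides: a finite average
-/

set_option autoImplicit false

namespace Pool.Agent.MC.H74

/-- averaging: some `a` is good for all `b` -/
theorem avg {A B : Type} [Fintype A] [Nonempty A] [Fintype B] (f : A → B → ℝ) (K : ℝ)
    (h0 : ∀ a b, 0 ≤ f a b) (h : ∀ b, ∑ a, f a b ≤ (Fintype.card A : ℝ) * K) :
    ∃ a, ∀ b, f a b ≤ (Fintype.card B : ℝ) * K := by
  have h1 : ∑ a, ∑ b, f a b ≤ ∑ _a : A, (Fintype.card B : ℝ) * K := by
    rw [Finset.sum_comm]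
    calc ∑ b, ∑ a, f a b ≤ ∑ _b : B, (Fintype.card A : ℝ) * K := Finset.sum_le_sum fun b _ => h b
      _ = ∑ _a : A, (Fintype.card B : ℝ) * K := by
        simp only [Finset.sum_const, Finset.card_univ, nsmul_eq_mul]
        ring
  obtain ⟨a, _, ha⟩ := Finset.exists_le_of_sum_le Finset.univ_nonempty h1
  exact ⟨a, fun b => (Finset.single_le_sum (fun b _ => h0 a b) (Finset.mem_univ b)).trans ha⟩

/-- the sign of a Boolean -/
def sg (b : Bool) : ℝ := if b then 1 else -1

theorem sg_sq (b : Bool) : sg b ^ 2 = 1 := by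
  cases b <;> norm_num [sg]

theorem mgf_fin (n : ℕ) : ∀ (X : Fin n → ℝ) (_ : ∀ i, X i ^ 2 ≤ 1) (a N θ : ℝ),
    2 * (n : ℝ) < N → 0 ≤ θ → θ ≤ 1 / N →
    ∑ σ : Fin n → Bool, Real.exp (θ * (a + ∑ i, sg (σ i) * X i) ^ 2) ≤
      2 ^ n * (Real.exp (n / (N - 2 * n)) * Real.exp (a ^ 2 / (N - 2 * n))) := by
  induction n with
  | zero =>
    intro X _ a N θ hN h0 hθ
    simp only [Finset.univ_eq_empty, Finset.sum_empty, add_zero, Nat.cast_zero, mul_zero,
      sub_zero, zero_div, Real.exp_zero, one_mul, pow_zero]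
    rw [Fintype.sum_unique]
    apply Real.exp_le_exp.2
    calc θ * a ^ 2 ≤ 1 / N * a ^ 2 := mul_le_mul_of_nonneg_right hθ (sq_nonneg a)
      _ = a ^ 2 / N := by ring
  | succ n ih =>
    intro X hX a N θ hN h0 hθ
    push_cast at hN
    rw [← (Fin.consEquiv (fun _ : Fin (n + 1) => Bool)).sum_comp, Fintype.sum_prod_type]
    have hM : 0 < N - 2 * n - 2 := by linarith
    have hM' : 0 < N - 2 * n := by linarith
    have step : ∀ b : Bool, ∑ τ : Fin n → Bool, Real.exp (θ * (a + ∑ i : Fin (n + 1),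
        sg ((Fin.consEquiv (fun _ : Fin (n + 1) => Bool)) (b, τ) i) * X i) ^ 2) ≤
        2 ^ n * (Real.exp (n / (N - 2 * n)) *
          Real.exp ((a + sg b * X 0) ^ 2 / (N - 2 * n))) := by
      intro b
      have := ih (fun i => X i.succ) (fun i => hX _) (a + sg b * X 0) N θ (by linarith) h0 hθ
      refine le_trans (le_of_eq ?_) this
      apply Finset.sum_congr rfl
      intro τ _
      congr 2
      rw [Fin.sum_univ_succ]
      simp only [Fin.consEquiv, Equiv.coe_fn_mk, Fin.cons_zero, Fin.cons_succ]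
      ring
    refine (Finset.sum_le_sum fun b _ => step b).trans ?_
    rw [← Finset.mul_sum, ← Finset.mul_sum, Fintype.sum_bool]
    have e1 : Real.exp ((a + sg true * X 0) ^ 2 / (N - 2 * n)) +
        Real.exp ((a + sg false * X 0) ^ 2 / (N - 2 * n)) ≤
        2 * (Real.exp (1 / (N - 2 * n)) * Real.exp (a ^ 2 / (N - 2 * n - 2))) := by
      have h1 : Real.exp ((a + sg true * X 0) ^ 2 / (N - 2 * n)) +
        Real.exp ((a + sg false * X 0) ^ 2 / (N - 2 * n)) =
        2 * (Real.exp ((a ^ 2 + X 0 ^ 2) / (N - 2 * n)) *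
          Real.cosh (2 * a * X 0 / (N - 2 * n))) := by
        rw [Real.cosh_eq]
        have e2 : Real.exp ((a + sg true * X 0) ^ 2 / (N - 2 * n)) =
            Real.exp ((a ^ 2 + X 0 ^ 2) / (N - 2 * n)) *
              Real.exp (2 * a * X 0 / (N - 2 * n)) := by
          rw [← Real.exp_add]
          congr 1
          simp only [sg, if_true]
          field_simp
          ring
        have e3 : Real.exp ((a + sg false * X 0) ^ 2 / (N - 2 * n)) =
            Real.exp ((a ^ 2 + X 0 ^ 2) / (N - 2 * n)) *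
              Real.exp (-(2 * a * X 0 / (N - 2 * n))) := by
          rw [← Real.exp_add]
          congr 1
          simp only [sg]
          field_simp
          norm_num
          ring
        rw [e2, e3]
        ring
      rw [h1]
      apply mul_le_mul_of_nonneg_left _ (by norm_num)
      have h2 := Real.cosh_le_exp_half_sq (2 * a * X 0 / (N - 2 * n))
      calc Real.exp ((a ^ 2 + X 0 ^ 2) / (N - 2 * n)) * Real.cosh (2 * a * X 0 / (N - 2 * n))
          ≤ Real.exp ((a ^ 2 + X 0 ^ 2) / (N - 2 * n)) *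
            Real.exp ((2 * a * X 0 / (N - 2 * n)) ^ 2 / 2) :=
            mul_le_mul_of_nonneg_left h2 (Real.exp_pos _).le
        _ ≤ Real.exp (1 / (N - 2 * n)) * Real.exp (a ^ 2 / (N - 2 * n - 2)) := by
            rw [← Real.exp_add, ← Real.exp_add]
            apply Real.exp_le_exp.2
            have hx := hX 0
            have g1 : (a ^ 2 + X 0 ^ 2) / (N - 2 * n) ≤ a ^ 2 / (N - 2 * n) + 1 / (N - 2 * n) := by
              rw [← add_div]
              apply div_le_div_of_nonneg_right _ hM'.le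
              linarith
            have g2 : (2 * a * X 0 / (N - 2 * n)) ^ 2 / 2 ≤ a ^ 2 * (2 / (N - 2 * n) ^ 2) := by
              have : (2 * a * X 0 / (N - 2 * n)) ^ 2 / 2 =
                  a ^ 2 * (2 / (N - 2 * n) ^ 2) * X 0 ^ 2 := by
                field_simp
              rw [this]
              apply mul_le_of_le_one_right _ hx
              positivity
            have g3 : 1 / (N - 2 * n) + 2 / (N - 2 * n) ^ 2 ≤ 1 / (N - 2 * n - 2) := by
              rw [div_add_div _ _ hM'.ne' (pow_ne_zero 2 hM'.ne'), div_le_div_iff₀ (by positivity) hM]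
              nlinarith [sq_nonneg (N - 2 * n)]
            have g4 : a ^ 2 / (N - 2 * n) + a ^ 2 * (2 / (N - 2 * n) ^ 2) ≤
                a ^ 2 / (N - 2 * n - 2) := by
              have := mul_le_mul_of_nonneg_left g3 (sq_nonneg a)
              calc a ^ 2 / (N - 2 * n) + a ^ 2 * (2 / (N - 2 * n) ^ 2)
                  = a ^ 2 * (1 / (N - 2 * n) + 2 / (N - 2 * n) ^ 2) := by ring
                _ ≤ a ^ 2 * (1 / (N - 2 * n - 2)) := this
                _ = a ^ 2 / (N - 2 * n - 2) := by ring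
            linarith
    calc 2 ^ n * (Real.exp (↑n / (N - 2 * ↑n)) *
        (Real.exp ((a + sg true * X 0) ^ 2 / (N - 2 * ↑n)) +
          Real.exp ((a + sg false * X 0) ^ 2 / (N - 2 * ↑n))))
        ≤ 2 ^ n * (Real.exp (↑n / (N - 2 * ↑n)) *
          (2 * (Real.exp (1 / (N - 2 * n)) * Real.exp (a ^ 2 / (N - 2 * n - 2))))) := by
          gcongr
      _ = 2 ^ (n + 1) * (Real.exp ((n + 1) / (N - 2 * n)) *
          Real.exp (a ^ 2 / (N - 2 * n - 2))) := by
          rw [add_div (n : ℝ) 1, Real.exp_add]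
          ring
      _ ≤ 2 ^ (n + 1) * (Real.exp ((n + 1 : ℕ) / (N - 2 * (n + 1 : ℕ))) *
          Real.exp (a ^ 2 / (N - 2 * (n + 1 : ℕ)))) := by
          have h3 : N - 2 * ((n + 1 : ℕ) : ℝ) = N - 2 * n - 2 := by
            push_cast
            ring
          rw [h3]
          push_cast
          apply mul_le_mul_of_nonneg_left _ (by positivity)
          apply mul_le_mul_of_nonneg_right _ (Real.exp_pos _).le
          apply Real.exp_le_exp.2
          apply div_le_div_of_nonneg_left (by positivity) hM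
          linarith

theorem mgf {κ : Type} [Fintype κ] [DecidableEq κ] [Nonempty κ] (X : κ → ℝ)
    (hX : ∀ i, X i ^ 2 ≤ 1) :
    ∑ σ : κ → Bool, Real.exp (1 / (4 * (Fintype.card κ : ℝ)) * (∑ i, sg (σ i) * X i) ^ 2) ≤
      (Fintype.card (κ → Bool) : ℝ) * Real.exp (1 / 2) := by
  obtain ⟨e⟩ := Fintype.truncEquivFin κ |>.exists_rep
  have hn : (0 : ℝ) < Fintype.card κ := by exact_mod_cast Fintype.card_pos
  have := mgf_fin (Fintype.card κ) (fun i => X (e.symm i)) (fun i => hX _) 0
    (4 * (Fintype.card κ : ℝ)) (1 / (4 * (Fintype.card κ : ℝ))) (by linarith) (by positivity)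
    le_rfl
  have h2 : (Fintype.card κ : ℝ) / (4 * (Fintype.card κ : ℝ) - 2 * (Fintype.card κ : ℝ)) =
      1 / 2 := by
    field_simp
    ring
  rw [h2] at this
  simp only [ne_eq, OfNat.ofNat_ne_zero, not_false_eq_true, zero_pow, zero_div, Real.exp_zero,
    mul_one, zero_add] at this
  rw [Fintype.card_fun, Fintype.card_bool]
  push_cast
  refine le_trans (le_of_eq ?_) this
  rw [← (Equiv.arrowCongr e (Equiv.refl Bool)).sum_comp]
  apply Finset.sum_congr rfl
  intro σ _
  congr 3
  rw [← e.symm.sum_comp]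
  rfl

variable {p : ℕ}

/-- Choice of sides. -/
theorem sides [Fact p.Prime] : ∃ s : Pt p → ZMod p → Bool, ∀ X : Pt p → ℝ,
    (∀ x, X x = 1 ∨ X x = -1) →
    ∑ l : Pt p, (∑ L : ZMod p, sg (s l L) * X (pt l L)) ^ 2 ≤ 5 * (p : ℝ) ^ 6 := by
  have hp0 : (0 : ℝ) < p := by exact_mod_cast (Fact.out : p.Prime).pos
  have hcard : Fintype.card (Pt p) = p ^ 5 := by
    simp only [Pt, Fintype.card_prod, ZMod.card]
    ring
  obtain ⟨s, hs⟩ := avg (A := Pt p → ZMod p → Bool) (B := Pt p → Bool)
    (fun s X => Real.exp (∑ l : Pt p,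
      1 / (4 * (p : ℝ)) * (∑ L : ZMod p, sg (s l L) * sg (X (pt l L))) ^ 2))
    (Real.exp (1 / 2) ^ (p ^ 5)) (fun _ _ => (Real.exp_pos _).le) (by
      intro X
      simp only [Real.exp_sum]
      have h1 := Finset.prod_univ_sum (R := ℝ) (fun _ : Pt p => (Finset.univ : Finset (ZMod p → Bool)))
        (fun l σ => Real.exp (1 / (4 * (p : ℝ)) *
          (∑ L : ZMod p, sg (σ L) * sg (X (pt l L))) ^ 2))
      rw [Fintype.piFinset_univ] at h1
      rw [← h1]
      have h2 : ∀ l : Pt p, ∑ σ : ZMod p → Bool, Real.exp (1 / (4 * (p : ℝ)) *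
          (∑ L : ZMod p, sg (σ L) * sg (X (pt l L))) ^ 2) ≤
          (Fintype.card (ZMod p → Bool) : ℝ) * Real.exp (1 / 2) := by
        intro l
        have := mgf (κ := ZMod p) (fun L => sg (X (pt l L))) (fun L => (sg_sq _).le)
        rw [ZMod.card] at this
        exact this
      calc ∏ l : Pt p, ∑ σ : ZMod p → Bool, Real.exp (1 / (4 * (p : ℝ)) *
          (∑ L : ZMod p, sg (σ L) * sg (X (pt l L))) ^ 2)
          ≤ ∏ _l : Pt p, ((Fintype.card (ZMod p → Bool) : ℝ) * Real.exp (1 / 2)) := by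
            apply Finset.prod_le_prod
            · intro l _
              exact Finset.sum_nonneg fun σ _ => (Real.exp_pos _).le
            · intro l _
              exact h2 l
        _ = (Fintype.card (Pt p → ZMod p → Bool) : ℝ) * Real.exp (1 / 2) ^ (p ^ 5) := by
            rw [Finset.prod_const, mul_pow, Finset.card_univ, hcard,
              Fintype.card_fun (α := Pt p) (β := ZMod p → Bool), hcard]
            push_cast
            ring)
  refine ⟨s, fun X hX => ?_⟩
  have h3 := hs (fun x => decide (X x = 1))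
  have h4 : ∀ x, sg (decide (X x = 1)) = X x := by
    intro x
    rcases hX x with h | h
    · simp [sg, h]
    · have : ¬ X x = 1 := by rw [h]; norm_num
      simp [sg, h]
      norm_num
  simp only [h4] at h3
  rw [Fintype.card_fun, hcard, Fintype.card_bool, ← Real.exp_nat_mul] at h3
  have h5 : ((2 ^ p ^ 5 : ℕ) : ℝ) ≤ Real.exp ((p ^ 5 : ℕ) * (7 / 10)) := by
    rw [Real.exp_nat_mul]
    push_cast
    apply pow_le_pow_left₀ (by norm_num)
    rw [← Real.log_le_iff_le_exp (by norm_num)]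
    have := Real.log_two_lt_d9
    linarith
  have h6 : Real.exp (∑ l : Pt p, 1 / (4 * (p : ℝ)) * (∑ L : ZMod p, sg (s l L) * X (pt l L)) ^ 2)
      ≤ Real.exp ((p ^ 5 : ℕ) * (7 / 10) + (p ^ 5 : ℕ) * (1 / 2)) := by
    rw [Real.exp_add]
    exact h3.trans (mul_le_mul_of_nonneg_right h5 (Real.exp_pos _).le)
  rw [Real.exp_le_exp, ← Finset.mul_sum] at h6
  push_cast at h6
  have h7 := mul_le_mul_of_nonneg_left h6 (by positivity : 0 ≤ 4 * (p : ℝ))
  have h8 : 4 * (p : ℝ) * (1 / (4 * (p : ℝ)) *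
      ∑ l : Pt p, (∑ L : ZMod p, sg (s l L) * X (pt l L)) ^ 2) =
      ∑ l : Pt p, (∑ L : ZMod p, sg (s l L) * X (pt l L)) ^ 2 := by
    field_simp
  rw [h8] at h7
  refine h7.trans ?_
  have : 0 ≤ (p : ℝ) ^ 6 := by positivity
  nlinarith

end Pool.Agent.MC.H74
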